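import Pool.Agent.Lib.MP_216314_pr.Q.QDef

/-!
# Asymptotics of `An L`

Put `λ = 4/(3√3)`, `b L = (An (L+1)/An L) λ^(2L+1)`. `An (L+1)/An L = (3L+1)! L!/((2L)! (2L+1)!)`.
`b_ratio`: for `L ≥ 1`: `b L = b (L-1) * (1 - 1/(9L²))/(1 - 1/(4L²))` [`(3L+1)(3L)(3L-1) L/((2L)(2L-1)(2L+1)(2L)) * 16/27`].
`b_lim`: `b L → 1` (Stirling, `Stirling.tendsto_stirlingSeq_sqrt_pi`: `n! = stirlingSeq n * √(2n) (n/e)^n`; or: `b` is monotone and the limit by the Wallis-type product; with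
`s n = stirlingSeq n → √π`: `(3L+1)! = (3L+1) s(3L) √(6L) (3L/e)^(3L)`, `L! = s(L) √(2L) (L/e)^L`, `(2L)! = s(2L) √(4L) (2L/e)^(2L)`, `(2L+1)! = (2L+1) (2L)!`, so
`b L = (3L+1)/(2L+1) * s(3L) s(L)/s(2L)² * √12 L/(4L) * (27/16)^L * λ^(2L+1)`, `λ² = 16/27`, `(3/2) * (√12/4) * 4/(3√3) = 1`).
`b_bound`: `|log (b L) + (5/36)/L| ≤ 1/L²` for `L ≥ 1` (any constant will do): `log (b L) = -∑_{m>L} [log(1 - 1/(9m²)) - log(1 - 1/(4m²))]`, each bracket is `5/(36 m²) + O(m⁻⁴)`,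
`1/m² ` compared with `1/(m-1) - 1/m` and `1/m - 1/(m+1)`: e.g. show that `c L = log (b L) + (5/36)/L - K/L²` and `d L = log (b L) + (5/36)/L + K/L²` are monotone in opposite directions with
limit `0`.
`an_asy`: `log (λ^(n²) An n) = log (λ^(1) An 1) + ∑_{L=1}^{n-1} log (b L)` (`(L+1)² - L² = 2L+1`), `∑ 1/L = log n + O(1)`, `∑ 1/L² = O(1)`. Exponentiate.
-/

set_option autoImplicit false

noncomputable section

namespace CYQ

open Finset Filter Topology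

/-- `(An (L+1)/An L) λ^(2L+1)` -/
def bq (L : ℕ) : ℝ := (((3 * L + 1).factorial : ℝ) * (L.factorial : ℝ)) /
    (((2 * L).factorial : ℝ) * ((2 * L + 1).factorial : ℝ)) * (4 / (3 * Real.sqrt 3)) ^ (2 * L + 1)

theorem bq_pos (L : ℕ) : 0 < bq L := by
  unfold bq
  positivity

theorem qasy_lam_sq : (4 / (3 * Real.sqrt 3)) ^ 2 = (16 / 27 : ℝ) := by
  have h3 : Real.sqrt 3 ^ 2 = 3 := Real.sq_sqrt (by norm_num)
  rw [div_pow, mul_pow, h3]
  norm_num

theorem qasy_ratio (m : ℝ) (hm : 1 ≤ m) :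
    (1 - 1 / (9 * m ^ 2)) / (1 - 1 / (4 * m ^ 2)) = (4 * (9 * m ^ 2 - 1)) / (9 * (4 * m ^ 2 - 1)) := by
  have h1 : (1 : ℝ) ≤ m ^ 2 := by nlinarith
  have h2 : (4 * m ^ 2 - 1 : ℝ) ≠ 0 := by
    intro h
    linarith
  have h3 : (m : ℝ) ≠ 0 := by
    intro h
    linarith
  have e1 : 1 - 1 / (9 * m ^ 2) = (9 * m ^ 2 - 1) / (9 * m ^ 2) := by
    field_simp
  have e2 : 1 - 1 / (4 * m ^ 2) = (4 * m ^ 2 - 1) / (4 * m ^ 2) := by
    field_simp
  rw [e1, e2]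
  field_simp

theorem bq_succ (L : ℕ) : bq (L + 1) = bq L * ((1 - 1 / (9 * ((L : ℝ) + 1) ^ 2)) / (1 - 1 / (4 * ((L : ℝ) + 1) ^ 2))) := by
  have hL : (0 : ℝ) ≤ (L : ℝ) := Nat.cast_nonneg L
  rw [qasy_ratio ((L : ℝ) + 1) (by linarith)]
  have e1 : (3 * (L + 1) + 1).factorial = (3 * L + 4) * ((3 * L + 3) * ((3 * L + 2) * (3 * L + 1).factorial)) := by
    rw [show 3 * (L + 1) + 1 = 3 * L + 1 + 1 + 1 + 1 by ring, Nat.factorial_succ, Nat.factorial_succ,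
      Nat.factorial_succ]
  have e2 : (2 * (L + 1)).factorial = (2 * L + 2) * ((2 * L + 1) * (2 * L).factorial) := by
    rw [show 2 * (L + 1) = 2 * L + 1 + 1 by ring, Nat.factorial_succ, Nat.factorial_succ]
  have e3 : (2 * (L + 1) + 1).factorial = (2 * L + 3) * ((2 * L + 2) * (2 * L + 1).factorial) := by
    rw [show 2 * (L + 1) + 1 = 2 * L + 1 + 1 + 1 by ring, Nat.factorial_succ, Nat.factorial_succ]
  have e4 : (L + 1).factorial = (L + 1) * L.factorial := Nat.factorial_succ L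
  have e5 : (4 / (3 * Real.sqrt 3)) ^ (2 * (L + 1) + 1) = (4 / (3 * Real.sqrt 3)) ^ (2 * L + 1) * (16 / 27 : ℝ) := by
    rw [show 2 * (L + 1) + 1 = 2 * L + 1 + 2 by ring, pow_add, qasy_lam_sq]
  unfold bq
  rw [e1, e2, e3, e4, e5]
  push_cast
  have f1 : ((2 * L).factorial : ℝ) ≠ 0 := by positivity
  have f2 : ((2 * L + 1).factorial : ℝ) ≠ 0 := by positivity
  have f3 : (4 * ((L : ℝ) + 1) ^ 2 - 1) ≠ 0 := by
    have : (0 : ℝ) < 4 * ((L : ℝ) + 1) ^ 2 - 1 := by nlinarith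
    exact ne_of_gt this
  have f4 : (2 * (L : ℝ) + 2) ≠ 0 := by positivity
  have f5 : (2 * (L : ℝ) + 1) ≠ 0 := by positivity
  have f6 : (2 * (L : ℝ) + 3) ≠ 0 := by positivity
  generalize (4 / (3 * Real.sqrt 3)) ^ (2 * L + 1) = w
  generalize ((2 * L).factorial : ℝ) = a at *
  generalize ((2 * L + 1).factorial : ℝ) = b at *
  generalize ((3 * L + 1).factorial : ℝ) = c at *
  generalize (L.factorial : ℝ) = d at *
  have f7 : (9 * (4 * ((L : ℝ) + 1) ^ 2 - 1)) ≠ 0 := mul_ne_zero (by norm_num) f3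
  have f8 : ((2 * (L : ℝ) + 2) * ((2 * L + 1) * a) * ((2 * L + 3) * ((2 * L + 2) * b))) ≠ 0 :=
    mul_ne_zero (mul_ne_zero f4 (mul_ne_zero f5 f1)) (mul_ne_zero f6 (mul_ne_zero f4 f2))
  have f9 : a * b ≠ 0 := mul_ne_zero f1 f2
  have key : (3 * (L : ℝ) + 4) * ((3 * L + 3) * ((3 * L + 2) * c)) * ((L + 1) * d) /
      ((2 * (L : ℝ) + 2) * ((2 * L + 1) * a) * ((2 * L + 3) * ((2 * L + 2) * b))) * (16 / 27) =
      c * d / (a * b) * ((4 * (9 * ((L : ℝ) + 1) ^ 2 - 1)) / (9 * (4 * ((L : ℝ) + 1) ^ 2 - 1))) := by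
    rw [div_mul_div_comm, div_mul_div_comm, div_eq_div_iff (mul_ne_zero f8 (by norm_num)) (mul_ne_zero f9 f7)]
    ring
  calc _ = ((3 * (L : ℝ) + 4) * ((3 * L + 3) * ((3 * L + 2) * c)) * ((L + 1) * d) /
      ((2 * (L : ℝ) + 2) * ((2 * L + 1) * a) * ((2 * L + 3) * ((2 * L + 2) * b))) * (16 / 27)) * w := by ring
    _ = _ := by rw [key]; ring

theorem qasy_fact (n : ℕ) (hn : n ≠ 0) :
    (n.factorial : ℝ) = Stirling.stirlingSeq n * (Real.sqrt (2 * n) * ((n : ℝ) / Real.exp 1) ^ n) := by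
  unfold Stirling.stirlingSeq
  have h : Real.sqrt (2 * n) * ((n : ℝ) / Real.exp 1) ^ n ≠ 0 := by
    have h0 : (0 : ℝ) < (n : ℝ) := by
      exact_mod_cast Nat.pos_of_ne_zero hn
    have := Real.exp_pos 1
    positivity
  rw [div_mul_cancel₀ _ h]

theorem qasy_bq (L : ℕ) (hL : L ≠ 0) :
    bq L = ((3 * (L : ℝ) + 1) / (2 * L + 1)) * (2 / 3) *
      (Stirling.stirlingSeq (3 * L) * Stirling.stirlingSeq L / (Stirling.stirlingSeq (2 * L)) ^ 2) := by
  have h0 : (0 : ℝ) < (L : ℝ) := by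
    exact_mod_cast Nat.pos_of_ne_zero hL
  have e1 : ((3 * L + 1).factorial : ℝ) = (3 * (L : ℝ) + 1) * ((3 * L).factorial : ℝ) := by
    rw [Nat.factorial_succ]
    push_cast
    ring
  have e2 : ((2 * L + 1).factorial : ℝ) = (2 * (L : ℝ) + 1) * ((2 * L).factorial : ℝ) := by
    rw [Nat.factorial_succ]
    push_cast
    ring
  have e3 := qasy_fact (3 * L) (by omega)
  have e4 := qasy_fact L hL
  have e5 := qasy_fact (2 * L) (by omega)
  have hs : (Stirling.stirlingSeq (2 * L)) ≠ 0 := by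
    intro h
    rw [h, zero_mul] at e5
    have : ((2 * L).factorial : ℝ) ≠ 0 := by positivity
    exact this e5
  have e6 : (4 / (3 * Real.sqrt 3)) ^ (2 * L + 1) = (16 / 27 : ℝ) ^ L * (4 / (3 * Real.sqrt 3)) := by
    rw [pow_succ, pow_mul, qasy_lam_sq]
  have hs3 : Real.sqrt 3 ≠ 0 := by positivity
  have h33 : Real.sqrt 3 * Real.sqrt 3 = 3 := Real.mul_self_sqrt (by norm_num)
  -- the square roots
  have r1 : Real.sqrt (2 * ((3 * L : ℕ) : ℝ)) * Real.sqrt (2 * (L : ℝ)) = 2 * Real.sqrt 3 * L := by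
    rw [← Real.sqrt_mul (by positivity)]
    rw [show 2 * ((3 * L : ℕ) : ℝ) * (2 * (L : ℝ)) = 3 * (2 * (L : ℝ)) ^ 2 by push_cast; ring]
    rw [Real.sqrt_mul (by norm_num), Real.sqrt_sq (by positivity)]
    ring
  have r2 : Real.sqrt (2 * ((2 * L : ℕ) : ℝ)) * Real.sqrt (2 * ((2 * L : ℕ) : ℝ)) = 4 * L := by
    rw [Real.mul_self_sqrt (by positivity)]
    push_cast
    ring
  -- the powers
  have p1 : (((3 * L : ℕ) : ℝ) / Real.exp 1) ^ (3 * L) * ((L : ℝ) / Real.exp 1) ^ L =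
      27 ^ L * ((L : ℝ) / Real.exp 1) ^ (4 * L) := by
    have : ((3 * L : ℕ) : ℝ) / Real.exp 1 = 3 * ((L : ℝ) / Real.exp 1) := by
      push_cast
      ring
    rw [this, mul_pow, pow_mul (3 : ℝ) 3 L, mul_assoc, ← pow_add]
    norm_num
    try left
    ring
  have p2 : (((2 * L : ℕ) : ℝ) / Real.exp 1) ^ (2 * L) * (((2 * L : ℕ) : ℝ) / Real.exp 1) ^ (2 * L) =
      16 ^ L * ((L : ℝ) / Real.exp 1) ^ (4 * L) := by
    have : ((2 * L : ℕ) : ℝ) / Real.exp 1 = 2 * ((L : ℝ) / Real.exp 1) := by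
      push_cast
      ring
    rw [this, ← pow_add, mul_pow, show 2 * L + 2 * L = 4 * L by ring, pow_mul (2 : ℝ) 4 L]
    norm_num
  have hq : ((L : ℝ) / Real.exp 1) ^ (4 * L) ≠ 0 := by
    have := Real.exp_pos 1
    positivity
  have key : ((3 * L).factorial : ℝ) * (L.factorial : ℝ) / (((2 * L).factorial : ℝ) * ((2 * L).factorial : ℝ)) =
      (Stirling.stirlingSeq (3 * L) * Stirling.stirlingSeq L / (Stirling.stirlingSeq (2 * L)) ^ 2) *
        (2 * Real.sqrt 3 * L / (4 * L)) * (27 ^ L / 16 ^ L) := by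
    rw [e3, e4, e5]
    generalize Stirling.stirlingSeq (3 * L) = s3
    generalize Stirling.stirlingSeq L = s1
    generalize Stirling.stirlingSeq (2 * L) = s2 at *
    rw [show s3 * (Real.sqrt (2 * ((3 * L : ℕ) : ℝ)) * (((3 * L : ℕ) : ℝ) / Real.exp 1) ^ (3 * L)) *
        (s1 * (Real.sqrt (2 * (L : ℝ)) * ((L : ℝ) / Real.exp 1) ^ L)) =
        s3 * s1 * (Real.sqrt (2 * ((3 * L : ℕ) : ℝ)) * Real.sqrt (2 * (L : ℝ))) *
          ((((3 * L : ℕ) : ℝ) / Real.exp 1) ^ (3 * L) * ((L : ℝ) / Real.exp 1) ^ L) by ring]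
    rw [show s2 * (Real.sqrt (2 * ((2 * L : ℕ) : ℝ)) * (((2 * L : ℕ) : ℝ) / Real.exp 1) ^ (2 * L)) *
        (s2 * (Real.sqrt (2 * ((2 * L : ℕ) : ℝ)) * (((2 * L : ℕ) : ℝ) / Real.exp 1) ^ (2 * L))) =
        s2 ^ 2 * (Real.sqrt (2 * ((2 * L : ℕ) : ℝ)) * Real.sqrt (2 * ((2 * L : ℕ) : ℝ))) *
          ((((2 * L : ℕ) : ℝ) / Real.exp 1) ^ (2 * L) * (((2 * L : ℕ) : ℝ) / Real.exp 1) ^ (2 * L)) by ring]
    rw [r1, r2, p1, p2]
    generalize ((L : ℝ) / Real.exp 1) ^ (4 * L) = z at *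
    have h16 : (16 : ℝ) ^ L ≠ 0 := by positivity
    have hL0 : (L : ℝ) ≠ 0 := ne_of_gt h0
    rw [div_mul_div_comm, div_mul_div_comm, div_eq_div_iff]
    · ring
    · exact mul_ne_zero (mul_ne_zero (pow_ne_zero 2 hs) (mul_ne_zero (by norm_num) hL0)) (mul_ne_zero h16 hq)
    · exact mul_ne_zero (mul_ne_zero (pow_ne_zero 2 hs) (mul_ne_zero (by norm_num) hL0)) h16
  have key2 : (2 * Real.sqrt 3 * L / (4 * L)) * (27 ^ L / 16 ^ L) * ((16 / 27 : ℝ) ^ L * (4 / (3 * Real.sqrt 3))) =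
      2 / 3 := by
    have hL0 : (L : ℝ) ≠ 0 := ne_of_gt h0
    have : (27 : ℝ) ^ L / 16 ^ L * (16 / 27 : ℝ) ^ L = 1 := by
      rw [← div_pow, ← mul_pow]
      norm_num
    calc _ = (2 * Real.sqrt 3 * L / (4 * L)) * (4 / (3 * Real.sqrt 3)) * ((27 : ℝ) ^ L / 16 ^ L * (16 / 27 : ℝ) ^ L) := by
          ring
      _ = (2 * Real.sqrt 3 * L / (4 * L)) * (4 / (3 * Real.sqrt 3)) := by rw [this, mul_one]
      _ = 2 / 3 := by
          field_simp
          try norm_num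
  unfold bq
  rw [e1, e2, e6]
  calc (3 * (L : ℝ) + 1) * ((3 * L).factorial : ℝ) * (L.factorial : ℝ) /
        (((2 * L).factorial : ℝ) * ((2 * (L : ℝ) + 1) * ((2 * L).factorial : ℝ))) *
          ((16 / 27 : ℝ) ^ L * (4 / (3 * Real.sqrt 3)))
      = ((3 * (L : ℝ) + 1) / (2 * L + 1)) *
        (((3 * L).factorial : ℝ) * (L.factorial : ℝ) / (((2 * L).factorial : ℝ) * ((2 * L).factorial : ℝ))) *
          ((16 / 27 : ℝ) ^ L * (4 / (3 * Real.sqrt 3))) := by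
        have f1 : ((2 * L).factorial : ℝ) ≠ 0 := by positivity
        have f2 : (2 * (L : ℝ) + 1) ≠ 0 := by positivity
        generalize ((2 * L).factorial : ℝ) = a at *
        generalize ((3 * L).factorial : ℝ) = c at *
        generalize (L.factorial : ℝ) = d at *
        congr 1
        rw [div_mul_div_comm]
        congr 1
        · ring
        · ring
    _ = ((3 * (L : ℝ) + 1) / (2 * L + 1)) * (Stirling.stirlingSeq (3 * L) * Stirling.stirlingSeq L / (Stirling.stirlingSeq (2 * L)) ^ 2) *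
        ((2 * Real.sqrt 3 * L / (4 * L)) * (27 ^ L / 16 ^ L) * ((16 / 27 : ℝ) ^ L * (4 / (3 * Real.sqrt 3)))) := by
        rw [key]
        ring
    _ = _ := by
        rw [key2]
        ring

theorem bq_lim : Tendsto bq atTop (𝓝 1) := by
  have hpi : Real.sqrt Real.pi ≠ 0 := by
    have := Real.pi_pos
    positivity
  have hS := Stirling.tendsto_stirlingSeq_sqrt_pi
  have t3 : Tendsto (fun L : ℕ => Stirling.stirlingSeq (3 * L)) atTop (𝓝 (Real.sqrt Real.pi)) :=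
    hS.comp (tendsto_id.const_mul_atTop' (by norm_num : 0 < 3))
  have t2 : Tendsto (fun L : ℕ => Stirling.stirlingSeq (2 * L)) atTop (𝓝 (Real.sqrt Real.pi)) :=
    hS.comp (tendsto_id.const_mul_atTop' (by norm_num : 0 < 2))
  have t1 : Tendsto (fun L : ℕ => (3 * (L : ℝ) + 1) / (2 * L + 1)) atTop (𝓝 (3 / 2)) := by
    have e : ∀ L : ℕ, (3 * (L : ℝ) + 1) / (2 * L + 1) = 3 / 2 - (1 / 2) * (1 / (2 * (L : ℝ) + 1)) := by
      intro L
      have : (2 * (L : ℝ) + 1) ≠ 0 := by positivity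
      field_simp
      ring
    have h0 : Tendsto (fun L : ℕ => 1 / (2 * (L : ℝ) + 1)) atTop (𝓝 0) := by
      have h1 : Tendsto (fun L : ℕ => (2 * (L : ℝ) + 1)) atTop atTop := by
        apply tendsto_atTop_add_const_right
        exact tendsto_natCast_atTop_atTop.const_mul_atTop (by norm_num)
      have h2 : Tendsto (fun L : ℕ => (2 * (L : ℝ) + 1)⁻¹) atTop (𝓝 0) := h1.inv_tendsto_atTop
      exact h2.congr (fun L => (one_div _).symm)
    have h2 := (tendsto_const_nhds (x := (3 / 2 : ℝ))).sub ((tendsto_const_nhds (x := (1 / 2 : ℝ))).mul h0)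
    rw [mul_zero, sub_zero] at h2
    exact h2.congr (fun L => (e L).symm)
  have t4 : Tendsto (fun L : ℕ => Stirling.stirlingSeq (3 * L) * Stirling.stirlingSeq L /
      (Stirling.stirlingSeq (2 * L)) ^ 2) atTop (𝓝 1) := by
    have h := (t3.mul hS).div (t2.pow 2) (pow_ne_zero 2 hpi)
    have e : Real.sqrt Real.pi * Real.sqrt Real.pi / (Real.sqrt Real.pi) ^ 2 = 1 := by
      rw [← sq, div_self (pow_ne_zero 2 hpi)]
    rw [e] at h
    exact h
  have t5 := (t1.mul (tendsto_const_nhds (x := (2 / 3 : ℝ)))).mul t4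
  have e5 : (3 / 2 : ℝ) * (2 / 3) * 1 = 1 := by norm_num
  rw [e5] at t5
  refine t5.congr' ?_
  filter_upwards [eventually_ne_atTop 0] with L hL
  exact (qasy_bq L hL).symm

/-- bounds for the logarithm of the ratio -/
theorem qasy_log_up (m : ℝ) (hm : 1 ≤ m) :
    Real.log ((1 - 1 / (9 * m ^ 2)) / (1 - 1 / (4 * m ^ 2))) ≤ 5 / 36 / (m ^ 2 - 1 / 4) := by
  rw [qasy_ratio m hm]
  have h1 : (1 : ℝ) ≤ m ^ 2 := by nlinarith
  have hpos : 0 < (4 * (9 * m ^ 2 - 1)) / (9 * (4 * m ^ 2 - 1)) := by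
    apply div_pos <;> nlinarith
  refine (Real.log_le_sub_one_of_pos hpos).trans (le_of_eq ?_)
  have h2 : (4 * m ^ 2 - 1 : ℝ) ≠ 0 := by
    intro h
    linarith
  have h3 : (m ^ 2 - 1 / 4 : ℝ) ≠ 0 := by
    intro h
    linarith
  rw [sub_eq_iff_eq_add, div_eq_iff (mul_ne_zero (by norm_num) h2)]
  have h4 : 5 / 36 / (m ^ 2 - 1 / 4) = 5 / (9 * (4 * m ^ 2 - 1)) := by
    rw [div_div, div_eq_div_iff (mul_ne_zero (by norm_num) h3) (mul_ne_zero (by norm_num) h2)]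
    ring
  rw [h4, add_mul, div_mul_cancel₀ _ (mul_ne_zero (by norm_num) h2)]
  ring

theorem qasy_log_lo (m : ℝ) (hm : 1 ≤ m) :
    5 / 36 / (m ^ 2 - 1 / 9) ≤ Real.log ((1 - 1 / (9 * m ^ 2)) / (1 - 1 / (4 * m ^ 2))) := by
  rw [qasy_ratio m hm]
  have h1 : (1 : ℝ) ≤ m ^ 2 := by nlinarith
  have hpos : 0 < (4 * (9 * m ^ 2 - 1)) / (9 * (4 * m ^ 2 - 1)) := by
    apply div_pos <;> nlinarith
  refine le_trans (le_of_eq ?_) (Real.one_sub_inv_le_log_of_pos hpos)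
  have h2 : (9 * m ^ 2 - 1 : ℝ) ≠ 0 := by
    intro h
    linarith
  have h3 : (m ^ 2 - 1 / 9 : ℝ) ≠ 0 := by
    intro h
    linarith
  rw [inv_div, eq_sub_iff_add_eq]
  have h4 : 5 / 36 / (m ^ 2 - 1 / 9) = 5 / (4 * (9 * m ^ 2 - 1)) := by
    rw [div_div, div_eq_div_iff (mul_ne_zero (by norm_num) h3) (mul_ne_zero (by norm_num) h2)]
    ring
  rw [h4, ← add_div, div_eq_one_iff_eq (mul_ne_zero (by norm_num) h2)]
  ring

theorem qasy_log_succ (L : ℕ) : Real.log (bq (L + 1)) = Real.log (bq L) +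
    Real.log ((1 - 1 / (9 * ((L : ℝ) + 1) ^ 2)) / (1 - 1 / (4 * ((L : ℝ) + 1) ^ 2))) := by
  have hL : (0 : ℝ) ≤ (L : ℝ) := Nat.cast_nonneg L
  have hpos : 0 < (1 - 1 / (9 * ((L : ℝ) + 1) ^ 2)) / (1 - 1 / (4 * ((L : ℝ) + 1) ^ 2)) := by
    rw [qasy_ratio _ (by linarith)]
    have h1 : (1 : ℝ) ≤ ((L : ℝ) + 1) ^ 2 := by nlinarith
    apply div_pos <;> nlinarith
  rw [bq_succ, Real.log_mul (ne_of_gt (bq_pos L)) (ne_of_gt hpos)]

theorem qasy_tend (K : ℝ) : Tendsto (fun n : ℕ => Real.log (bq (n + 1)) + 5 / 36 / ((n : ℝ) + 1) - K / ((n : ℝ) + 1) ^ 2)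
    atTop (𝓝 0) := by
  have h1 : Tendsto (fun n : ℕ => Real.log (bq (n + 1))) atTop (𝓝 0) := by
    have h := (bq_lim.log (by norm_num)).comp (tendsto_add_atTop_nat 1)
    rw [Real.log_one] at h
    exact h
  have h2 : Tendsto (fun n : ℕ => ((n : ℝ) + 1)) atTop atTop :=
    tendsto_atTop_add_const_right _ _ tendsto_natCast_atTop_atTop
  have h3 : Tendsto (fun n : ℕ => 5 / 36 / ((n : ℝ) + 1)) atTop (𝓝 0) :=
    tendsto_const_nhds.div_atTop h2
  have h4 : Tendsto (fun n : ℕ => K / ((n : ℝ) + 1) ^ 2) atTop (𝓝 0) :=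
    tendsto_const_nhds.div_atTop ((tendsto_pow_atTop (by norm_num)).comp h2)
  have h5 := (h1.add h3).sub h4
  rw [add_zero, sub_zero] at h5
  exact h5

theorem qasy_up (n : ℕ) : Real.log (bq (n + 1)) + 5 / 36 / ((n : ℝ) + 1) ≤ 5 / 36 / ((n : ℝ) + 1) ^ 2 := by
  have hmono : Monotone (fun n : ℕ => Real.log (bq (n + 1)) + 5 / 36 / ((n : ℝ) + 1) - (5 / 36) / ((n : ℝ) + 1) ^ 2) := by
    apply monotone_nat_of_le_succ
    intro n
    rw [qasy_log_succ (n + 1)]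
    push_cast
    have hn : (0 : ℝ) ≤ (n : ℝ) := Nat.cast_nonneg n
    have hl := qasy_log_lo ((n : ℝ) + 1 + 1) (by linarith)
    have key : 5 / 36 / ((n : ℝ) + 1) - (5 / 36) / ((n : ℝ) + 1) ^ 2 ≤
        5 / 36 / (((n : ℝ) + 1 + 1) ^ 2 - 1 / 9) + 5 / 36 / ((n : ℝ) + 1 + 1) - (5 / 36) / ((n : ℝ) + 1 + 1) ^ 2 := by
      set x : ℝ := (n : ℝ) + 1 with hx
      have hx1 : 1 ≤ x := by linarith
      have hx0 : x ≠ 0 := by linarith
      have hx2 : x + 1 ≠ 0 := by linarith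
      have g1 : 5 / 36 / (x + 1) ^ 2 ≤ 5 / 36 / ((x + 1) ^ 2 - 1 / 9) := by
        apply div_le_div_of_nonneg_left (by norm_num) (by nlinarith) (by linarith)
      have g2 : 5 / 36 / x - (5 / 36) / x ^ 2 ≤ 5 / 36 / (x + 1) := by
        rw [sub_le_iff_le_add, ← sub_nonneg]
        have : 5 / 36 / (x + 1) + 5 / 36 / x ^ 2 - 5 / 36 / x = 5 / 36 / (x ^ 2 * (x + 1)) := by
          field_simp
          ring
        rw [this]
        positivity
      linarith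
    linarith
  have h := hmono.ge_of_tendsto (qasy_tend (5 / 36)) n
  linarith

theorem qasy_lo (n : ℕ) : 0 ≤ Real.log (bq (n + 1)) + 5 / 36 / ((n : ℝ) + 1) := by
  have hanti : Antitone (fun n : ℕ => Real.log (bq (n + 1)) + 5 / 36 / ((n : ℝ) + 1) - 0 / ((n : ℝ) + 1) ^ 2) := by
    apply antitone_nat_of_succ_le
    intro n
    rw [qasy_log_succ (n + 1)]
    push_cast
    have hn : (0 : ℝ) ≤ (n : ℝ) := Nat.cast_nonneg n
    have hl := qasy_log_up ((n : ℝ) + 1 + 1) (by linarith)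
    have key : 5 / 36 / (((n : ℝ) + 1 + 1) ^ 2 - 1 / 4) + 5 / 36 / ((n : ℝ) + 1 + 1) ≤ 5 / 36 / ((n : ℝ) + 1) := by
      set x : ℝ := (n : ℝ) + 1 with hx
      have hx1 : 1 ≤ x := by linarith
      have hx0 : x ≠ 0 := by linarith
      have hx2 : x + 1 ≠ 0 := by linarith
      have g1 : 5 / 36 / ((x + 1) ^ 2 - 1 / 4) ≤ 5 / 36 / (x * (x + 1)) := by
        apply div_le_div_of_nonneg_left (by norm_num) (by nlinarith) (by nlinarith)
      have g2 : 5 / 36 / (x * (x + 1)) + 5 / 36 / (x + 1) = 5 / 36 / x := by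
        field_simp
        ring
      linarith
    simp only [zero_div, sub_zero]
    linarith
  have h := hanti.le_of_tendsto (qasy_tend 0) n
  simp only [zero_div, sub_zero] at h
  exact h

theorem bq_bound : ∃ K : ℝ, 0 < K ∧ ∀ L : ℕ, 1 ≤ L → |Real.log (bq L) + 5 / 36 / (L : ℝ)| ≤ K / (L : ℝ) ^ 2 := by
  refine ⟨5 / 36, by norm_num, ?_⟩
  intro L hL
  obtain ⟨n, rfl⟩ : ∃ n, L = n + 1 := ⟨L - 1, by omega⟩
  have h1 := qasy_up n
  have h2 := qasy_lo n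
  push_cast
  rw [abs_of_nonneg h2]
  exact h1

theorem qasy_prod (n : ℕ) : (4 / (3 * Real.sqrt 3)) ^ (n ^ 2) * An n = ∏ L ∈ range n, bq L := by
  induction n with
  | zero => simp [An]
  | succ n ih =>
    rw [prod_range_succ, ← ih]
    unfold An bq
    rw [prod_range_succ, show (n + 1) ^ 2 = n ^ 2 + (2 * n + 1) by ring, pow_add]
    ring

theorem qasy_u (n : ℕ) : |(Real.log (∏ L ∈ range (n + 1), bq L) + 5 / 36 * Real.log ((n : ℝ) + 1)) -
    Real.log (bq 0)| ≤ 5 / 36 * (2 - 2 / ((n : ℝ) + 1)) := by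
  induction n with
  | zero => simp
  | succ n ih =>
    have hn : (0 : ℝ) ≤ (n : ℝ) := Nat.cast_nonneg n
    rw [prod_range_succ, Real.log_mul (ne_of_gt (prod_pos fun i _ => bq_pos i)) (ne_of_gt (bq_pos (n + 1)))]
    push_cast
    have h1 := qasy_up n
    have h2 := qasy_lo n
    rw [abs_le] at ih ⊢
    generalize Real.log (∏ L ∈ range (n + 1), bq L) = P at *
    generalize Real.log (bq (n + 1)) = b at *
    generalize Real.log (bq 0) = b0 at *
    set x : ℝ := (n : ℝ) + 1 with hx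
    have hx1 : 1 ≤ x := by linarith
    have hx0 : 0 < x := by linarith
    have hx0' : x ≠ 0 := by linarith
    have hx2' : x + 1 ≠ 0 := by linarith
    have hlog : Real.log (x + 1) = Real.log x + Real.log ((x + 1) / x) := by
      rw [← Real.log_mul hx0' (by positivity), mul_div_cancel₀ _ hx0']
    have l1 : Real.log ((x + 1) / x) ≤ 1 / x := by
      refine (Real.log_le_sub_one_of_pos (by positivity)).trans (le_of_eq ?_)
      field_simp
      ring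
    have l2 : 1 / x - 1 / x ^ 2 ≤ Real.log ((x + 1) / x) := by
      refine le_trans ?_ (Real.one_sub_inv_le_log_of_pos (by positivity))
      rw [inv_div, ← sub_nonneg]
      have : 1 - x / (x + 1) - (1 / x - 1 / x ^ 2) = 1 / (x ^ 2 * (x + 1)) := by
        field_simp
        ring
      rw [this]
      positivity
    have l3 : 1 / x ^ 2 ≤ 2 / x - 2 / (x + 1) := by
      rw [← sub_nonneg]
      have : 2 / x - 2 / (x + 1) - 1 / x ^ 2 = (x - 1) / (x ^ 2 * (x + 1)) := by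
        field_simp
        ring
      rw [this]
      apply div_nonneg (by linarith) (by positivity)
    have e1 : 5 / 36 / x = 5 / 36 * (1 / x) := by ring
    have e2 : 5 / 36 / x ^ 2 = 5 / 36 * (1 / x ^ 2) := by ring
    rw [e1] at h1 h2
    rw [e2] at h1
    rw [hlog]
    constructor
    · linarith [ih.1]
    · linarith [ih.2]

theorem an_asy : ∃ c C : ℝ, 0 < c ∧ 0 < C ∧ ∀ n : ℕ, 1 ≤ n →
    c * (n : ℝ) ^ (-(5 / 36) : ℝ) ≤ (4 / (3 * Real.sqrt 3)) ^ (n ^ 2) * An n ∧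
      (4 / (3 * Real.sqrt 3)) ^ (n ^ 2) * An n ≤ C * (n : ℝ) ^ (-(5 / 36) : ℝ) := by
  refine ⟨Real.exp (Real.log (bq 0) - 5 / 18), Real.exp (Real.log (bq 0) + 5 / 18), Real.exp_pos _, Real.exp_pos _, ?_⟩
  intro n hn
  obtain ⟨m, rfl⟩ : ∃ m, n = m + 1 := ⟨n - 1, by omega⟩
  have hm : (0 : ℝ) ≤ (m : ℝ) := Nat.cast_nonneg m
  have hm1 : (0 : ℝ) < (m : ℝ) + 1 := by linarith
  have hu := qasy_u m
  rw [qasy_prod]
  have hP : 0 < ∏ L ∈ range (m + 1), bq L := prod_pos fun i _ => bq_pos i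
  have hle : 5 / 36 * (2 - 2 / ((m : ℝ) + 1)) ≤ 5 / 18 := by
    have : 0 < 2 / ((m : ℝ) + 1) := by positivity
    linarith
  have hu2 := hu.trans hle
  rw [abs_le] at hu2
  push_cast
  rw [Real.rpow_def_of_pos hm1, ← Real.exp_add, ← Real.exp_add]
  constructor
  · rw [← Real.exp_log hP, Real.exp_le_exp]
    linarith [hu2.1]
  · rw [← Real.exp_log hP, Real.exp_le_exp]
    linarith [hu2.2]

end CYQ
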