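import Pool.Agent.Lib.MP_216314_pr.Q.QDef

/-!
# `Rn L = An L`

Both are 1 for `L = 0` and satisfy `X (L+1) = X L * (3L+1)! L!/((2L)! (2L+1)!)`.
`rn_num`: `∏_{i,j<L+1} (3(j-i)+1) = ∏_{i,j<L} (3(j-i)+1) * ∏_{j<L} (3(j-L)+1) * ∏_{i<L} (3(L-i)+1)` and `(-3)^L ∏_{j<L} (3(j-L)+1) ∏_{i<L} (3(L-i)+1) = (3L+1)!/L!`
(`∏_{j<L} (3(j-L)+1) = ∏_{m=1}^L (1-3m) = (-1)^L ∏ (3m-1)`, reflect the product; `3^L ∏ (3m-1)(3m+1) = ∏ (3m-1)(3m)(3m+1)/L! = (3L+1)!/L!`, induction).
`rn_den`: `W L = ∏_{i,j<L} (L+j-i) = ∏_{i<L} (L+i)!/i!` (reflect `i`; the product over `j` is a quotient of factorials, `Nat.ascFactorial`), so `W (L+1) = W L * (2L)! (2L+1)!/(L!)²`.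
The exponent: `(L+1) L/2 = L (L-1)/2 + L`.
-/

set_option autoImplicit false

noncomputable section

namespace CYQ

open Finset

private theorem QRn_cast {L m : ℕ} (h : m < L) : ((L - 1 - m : ℕ) : ℝ) = (L : ℝ) - 1 - m := by
  have h1 : L - 1 - m + (m + 1) = L := by omega
  have h2 : ((L - 1 - m : ℕ) : ℝ) + (m + 1) = L := by exact_mod_cast h1
  linarith

private theorem QRn_fac_ne (n : ℕ) : (n.factorial : ℝ) ≠ 0 := Nat.cast_ne_zero.2 (Nat.factorial_ne_zero n)

private theorem QRn_num_aux (L : ℕ) : (3 : ℝ) ^ L * ((∏ m ∈ range L, (3 * (m : ℝ) + 2)) *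
    (∏ m ∈ range L, (3 * (m : ℝ) + 4))) = ((3 * L + 1).factorial : ℝ) / (L.factorial : ℝ) := by
  induction L with
  | zero => simp
  | succ L ih =>
    rw [Finset.prod_range_succ, Finset.prod_range_succ, pow_succ]
    have h1 : (3 * (L + 1) + 1).factorial =
        (3 * L + 4) * ((3 * L + 3) * ((3 * L + 2) * (3 * L + 1).factorial)) := by
      rw [show 3 * (L + 1) + 1 = (3 * L + 3) + 1 by ring, Nat.factorial_succ,
        show 3 * L + 3 = (3 * L + 2) + 1 by ring, Nat.factorial_succ,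
        show 3 * L + 2 = (3 * L + 1) + 1 by ring, Nat.factorial_succ]
    have h2 : (L + 1).factorial = (L + 1) * L.factorial := Nat.factorial_succ L
    rw [h1, h2]
    push_cast
    have h3 : (L : ℝ) + 1 ≠ 0 := by positivity
    have h4 := QRn_fac_ne L
    have h5 : (3 : ℝ) ^ L * 3 * ((∏ m ∈ range L, (3 * (m : ℝ) + 2)) * (3 * (L : ℝ) + 2) *
        ((∏ m ∈ range L, (3 * (m : ℝ) + 4)) * (3 * (L : ℝ) + 4))) =
        ((3 : ℝ) ^ L * ((∏ m ∈ range L, (3 * (m : ℝ) + 2)) * (∏ m ∈ range L, (3 * (m : ℝ) + 4)))) *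
          (3 * (3 * (L : ℝ) + 2) * (3 * (L : ℝ) + 4)) := by ring
    rw [h5, ih]
    field_simp

theorem rn_num (L : ℕ) :
    (-3 : ℝ) ^ L * (∏ j ∈ range L, (3 * ((j : ℝ) - L) + 1)) * (∏ i ∈ range L, (3 * ((L : ℝ) - i) + 1)) =
      ((3 * L + 1).factorial : ℝ) / (L.factorial : ℝ) := by
  have h1 : ∏ j ∈ range L, (3 * ((j : ℝ) - L) + 1) = (-1) ^ L * ∏ m ∈ range L, (3 * (m : ℝ) + 2) := by
    rw [← Finset.prod_range_reflect]
    have h : ∀ m ∈ range L, (3 * (((L - 1 - m : ℕ) : ℝ) - L) + 1) = (-1) * (3 * (m : ℝ) + 2) := by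
      intro m hm
      rw [QRn_cast (Finset.mem_range.1 hm)]
      ring
    rw [Finset.prod_congr rfl h, Finset.prod_mul_distrib, Finset.prod_const, Finset.card_range]
  have h2 : ∏ i ∈ range L, (3 * ((L : ℝ) - i) + 1) = ∏ m ∈ range L, (3 * (m : ℝ) + 4) := by
    rw [← Finset.prod_range_reflect]
    refine Finset.prod_congr rfl fun m hm => ?_
    rw [QRn_cast (Finset.mem_range.1 hm)]
    ring
  rw [h1, h2, ← QRn_num_aux L]
  have h3 : (-3 : ℝ) ^ L * (-1) ^ L = 3 ^ L := by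
    rw [← mul_pow]
    norm_num
  rw [← h3]
  ring

/-- the denominators -/
def Wn (L : ℕ) : ℝ := ∏ i ∈ range L, ∏ j ∈ range L, ((L : ℝ) + j - i)

private theorem QRn_asc (m L : ℕ) : ∏ j ∈ range L, ((m : ℝ) + 1 + j) =
    ((m + L).factorial : ℝ) / (m.factorial : ℝ) := by
  induction L with
  | zero => rw [Finset.range_zero, Finset.prod_empty, add_zero, div_self (QRn_fac_ne m)]
  | succ L ih =>
    rw [Finset.prod_range_succ, ih, ← add_assoc, Nat.factorial_succ]
    push_cast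
    ring

private theorem QRn_wn (L : ℕ) : Wn L = (∏ m ∈ range L, ((m + L).factorial : ℝ)) /
    ∏ m ∈ range L, (m.factorial : ℝ) := by
  unfold Wn
  rw [← Finset.prod_range_reflect, ← Finset.prod_div_distrib]
  refine Finset.prod_congr rfl fun m hm => ?_
  rw [← QRn_asc m L]
  refine Finset.prod_congr rfl fun j _ => ?_
  rw [QRn_cast (Finset.mem_range.1 hm)]
  ring

private theorem QRn_num_shift (L : ℕ) : (∏ m ∈ range (L + 1), ((m + (L + 1)).factorial : ℝ)) *
    (L.factorial : ℝ) = (∏ m ∈ range L, ((m + L).factorial : ℝ)) *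
      (((2 * L).factorial : ℝ) * ((2 * L + 1).factorial : ℝ)) := by
  have h1 : (∏ m ∈ range (L + 1), ((m + L).factorial : ℝ)) =
      (∏ m ∈ range L, ((m + (L + 1)).factorial : ℝ)) * (L.factorial : ℝ) := by
    rw [Finset.prod_range_succ', Nat.zero_add]
    refine congrArg (· * (L.factorial : ℝ)) (Finset.prod_congr rfl fun m _ => ?_)
    rw [show m + 1 + L = m + (L + 1) by ring]
  rw [Finset.prod_range_succ, show L + (L + 1) = 2 * L + 1 by ring, mul_right_comm, ← h1,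
    Finset.prod_range_succ, show L + L = 2 * L by ring]
  ring

theorem wn_succ (L : ℕ) :
    Wn (L + 1) = Wn L * (((2 * L).factorial : ℝ) * ((2 * L + 1).factorial : ℝ)) / (L.factorial : ℝ) ^ 2 := by
  have h1 := QRn_num_shift L
  have h2 : (∏ m ∈ range L, (m.factorial : ℝ)) ≠ 0 := Finset.prod_ne_zero_iff.2 fun m _ => QRn_fac_ne m
  have h3 := QRn_fac_ne L
  rw [QRn_wn, QRn_wn, Finset.prod_range_succ (fun m => (m.factorial : ℝ))]
  have h4 : (∏ m ∈ range (L + 1), ((m + (L + 1)).factorial : ℝ)) =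
      (∏ m ∈ range L, ((m + L).factorial : ℝ)) *
      (((2 * L).factorial : ℝ) * ((2 * L + 1).factorial : ℝ)) / (L.factorial : ℝ) := by
    rw [eq_div_iff h3]
    exact h1
  rw [h4]
  field_simp

private theorem QRn_double (a : ℕ → ℕ → ℝ) (L : ℕ) :
    ∏ i ∈ range (L + 1), ∏ j ∈ range (L + 1), a i j =
      (∏ i ∈ range L, ∏ j ∈ range L, a i j) * ((∏ j ∈ range L, a L j) * (∏ i ∈ range L, a i L) *
        a L L) := by
  have h1 : ∀ i ∈ range (L + 1), ∏ j ∈ range (L + 1), a i j = (∏ j ∈ range L, a i j) * a i L :=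
    fun i _ => Finset.prod_range_succ _ _
  rw [Finset.prod_congr rfl h1, Finset.prod_mul_distrib, Finset.prod_range_succ,
    Finset.prod_range_succ (fun i => a i L)]
  ring

private theorem QRn_rn (L : ℕ) : Rn L = (-3) ^ (L * (L - 1) / 2) *
    (∏ i ∈ range L, ∏ j ∈ range L, (3 * ((j : ℝ) - i) + 1)) / Wn L := by
  unfold Rn Wn
  rw [mul_div_assoc, ← Finset.prod_div_distrib]
  refine congrArg _ (Finset.prod_congr rfl fun i _ => ?_)
  rw [← Finset.prod_div_distrib]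

theorem rn_eq_an (L : ℕ) : Rn L = An L := by
  induction L with
  | zero =>
    unfold Rn An
    simp
  | succ L ih =>
    have hA : An (L + 1) = An L * ((((3 * L + 1).factorial : ℝ) * (L.factorial : ℝ)) /
        (((2 * L).factorial : ℝ) * ((2 * L + 1).factorial : ℝ))) := by
      unfold An
      rw [Finset.prod_range_succ]
    rw [hA, ← ih, QRn_rn, QRn_rn, wn_succ, QRn_double (fun i j => 3 * ((j : ℝ) - i) + 1) L,
      Nat.triangle_succ, pow_add]
    have h1 := rn_num L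
    have h2 := QRn_fac_ne L
    have h3 := QRn_fac_ne (2 * L)
    have h4 := QRn_fac_ne (2 * L + 1)
    set A := ∏ i ∈ range L, ∏ j ∈ range L, (3 * ((j : ℝ) - i) + 1) with hAdef
    set B := ∏ j ∈ range L, (3 * ((j : ℝ) - L) + 1) with hBdef
    set D := ∏ i ∈ range L, (3 * ((L : ℝ) - i) + 1) with hDdef
    have h5 : (-3 : ℝ) ^ (L * (L - 1) / 2) * (-3) ^ L * (A * (B * D * (3 * ((L : ℝ) - L) + 1))) =
        ((-3 : ℝ) ^ (L * (L - 1) / 2) * A) * (((3 * L + 1).factorial : ℝ) / (L.factorial : ℝ)) := by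
      rw [← h1]
      ring
    rw [h5]
    by_cases hW : Wn L = 0
    · rw [hW]
      simp
    · field_simp

end CYQ
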