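import Pool.Agent.Lib.MP_216314_pr.Q.QCub
import Pool.Agent.Lib.MP_216314_pr.Q.QRn
import Pool.Agent.Lib.MP_216314_pr.Q.QAsy
import Pool.Agent.Lib.MP_216314_pr.AS.ASMain
import Pool.Agent.Lib.MP_216314_pr.Z.ZLim

/-!
# Loops around a face of the cylinder with fugacity `-1`

`EE_neg_one`: `E_{-1}(1) = 3^((n+1)(2n+1)) A(2n+2)`, `A` the numbers of alternating sign matrices.
`ratio_neg_one`: `‖E_{-1}(1)/E_1(1)‖` is `L^(-1/4)` up to constants (`L = 2n+2`).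
-/

set_option autoImplicit false

noncomputable section

namespace CYQ

open Finset Filter Topology

theorem IB_eq (w : ℂ) (L : ℕ) : CY.IB w L = Matrix.of fun k l : Fin L => CY.ck w k l := by
  ext i j
  simp only [CY.IB, CY.ck, Matrix.of_apply]
  congr 1
  by_cases h : i = j
  · simp [h]
  · have h2 : (i : ℕ) ≠ (j : ℕ) := fun h3 => h (Fin.ext h3)
    simp [h, h2]

theorem IB_BM (w : ℂ) (L : ℕ) : CY.IB w L = 1 + w • PAS.BM L := by
  ext i j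
  simp only [CY.IB, PAS.BM, Matrix.of_apply, Matrix.add_apply, Matrix.smul_apply, smul_eq_mul, Matrix.one_apply]

/-- the exact value at fugacity `-1` -/
theorem EE_neg_one {q : ℂ} (hq : q ^ 2 + q + 1 = 0) (n : ℕ)
    {Pb P : CY.Pat (2 * n + 2) → MvPolynomial ℕ ℂ}
    (hPb : CY.IsPsi (q ^ 2) (2 * n + 2) Pb) (hP : CY.IsPsi q (2 * n + 2) P) :
    CY.EE (-1) Pb P (fun _ => 1) = 3 ^ ((n + 1) * (2 * n + 1)) * (An (2 * n + 2) : ℂ) := by
  have hw : (-1 : ℂ) * q = q ^ 2 + 1 := by linear_combination -hq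
  have h := CY.EE_hom hq hw n hPb hP
  rw [IB_eq, det_cube hq, rn_eq_an] at h
  have hq0 : q ≠ 0 := by
    rintro rfl
    norm_num at hq
  have hq3 : q ^ 3 = 1 := by linear_combination (q - 1) * hq
  have e : (-q ^ 2) ^ (2 * n + 2) = q ^ (n + 1) := by
    have e1 : (-q ^ 2) ^ (2 * n + 2) = ((-q ^ 2) ^ 2) ^ (n + 1) := by
      rw [← pow_mul]
      congr 1
    rw [e1]
    congr 1
    linear_combination q * hq3
  rw [e] at h
  have h2 : q ^ (n + 1) * (CY.EE (-1) Pb P (fun _ => 1) - 3 ^ ((n + 1) * (2 * n + 1)) * (An (2 * n + 2) : ℂ)) = 0 := by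
    linear_combination h
  rcases mul_eq_zero.1 h2 with h3 | h3
  · exact absurd h3 (pow_ne_zero _ hq0)
  · exact sub_eq_zero.1 h3

theorem an_pos (n : ℕ) : 0 < An n := by
  unfold An
  exact Finset.prod_pos fun j _ => by positivity

/-- the norm of the value at fugacity one -/
theorem EE_one_norm {q : ℂ} (hq : q ^ 2 + q + 1 = 0) (n : ℕ)
    {Pb P : CY.Pat (2 * n + 2) → MvPolynomial ℕ ℂ}
    (hPb : CY.IsPsi (q ^ 2) (2 * n + 2) Pb) (hP : CY.IsPsi q (2 * n + 2) P) :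
    ‖CY.EE 1 Pb P (fun _ => 1)‖ = 3 ^ ((n + 1) * (2 * n + 1)) *
      ‖(1 + Complex.exp (Complex.I * ((Real.pi / 3 : ℝ) : ℂ)) • PAS.BM (2 * n + 2)).det‖ := by
  obtain ⟨w, hwd⟩ : ∃ w : ℂ, w = Complex.exp (Complex.I * ((Real.pi / 3 : ℝ) : ℂ)) := ⟨_, rfl⟩
  have hw : (1 : ℂ) * w = w ^ 2 + 1 := by
    rw [hwd, mul_comm Complex.I, Complex.exp_mul_I, ← Complex.ofReal_cos, ← Complex.ofReal_sin, Real.cos_pi_div_three,
      Real.sin_pi_div_three]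
    have h3 : ((Real.sqrt 3 : ℝ) : ℂ) ^ 2 = 3 := by
      rw [← Complex.ofReal_pow, Real.sq_sqrt (by norm_num)]
      norm_num
    push_cast
    linear_combination (1 / 4 : ℂ) * ((-1) * Complex.I ^ 2) * h3 + (-3 / 4 : ℂ) * Complex.I_sq
  have hn : ‖w‖ = 1 := by
    rw [hwd, mul_comm, Complex.norm_exp_ofReal_mul_I]
  have h := CY.EE_hom hq hw n hPb hP
  have h2 := congrArg norm h
  rw [norm_mul, norm_mul, norm_pow, norm_pow, hn, one_pow, one_mul, IB_BM] at h2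
  rw [h2, ← hwd]
  norm_num

/-- TWO-ARM EXPONENT ON THE CYLINDER: the generating function of the number of loops around a face at fugacity `-1` decays like `L^(-1/4)` -/
theorem ratio_neg_one {q : ℂ} (hq : q ^ 2 + q + 1 = 0) : ∃ c C : ℝ, 0 < c ∧ 0 < C ∧ ∀ (n : ℕ)
    (Pb P : CY.Pat (2 * n + 2) → MvPolynomial ℕ ℂ), CY.IsPsi (q ^ 2) (2 * n + 2) Pb → CY.IsPsi q (2 * n + 2) P →
    c * ((2 * n + 2 : ℕ) : ℝ) ^ (-(1 / 4) : ℝ) ≤
        ‖CY.EE (-1) Pb P (fun _ => 1) / CY.EE 1 Pb P (fun _ => 1)‖ ∧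
      ‖CY.EE (-1) Pb P (fun _ => 1) / CY.EE 1 Pb P (fun _ => 1)‖ ≤
        C * ((2 * n + 2 : ℕ) : ℝ) ^ (-(1 / 4) : ℝ) := by
  have hpi := Real.pi_pos
  obtain ⟨c1, C1, hc1, hC1, H1⟩ := an_asy
  obtain ⟨c2, C2, hc2, hC2, H2⟩ := PAS.as_main (a := Real.pi / 3) (by positivity) (by linarith)
  refine ⟨c1 / C2, C1 / c2, div_pos hc1 hC2, div_pos hC1 hc2, ?_⟩
  intro n Pb P hPb hP
  obtain ⟨L, hL⟩ : ∃ L : ℕ, L = 2 * n + 2 := ⟨_, rfl⟩
  have hL1 : 1 ≤ L := by omega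
  have hx : (0 : ℝ) < L := by exact_mod_cast hL1
  obtain ⟨p1, p2⟩ := H1 L hL1
  obtain ⟨q1, q2⟩ := H2 L hL1
  rw [EE_neg_one hq n hPb hP, norm_div, EE_one_norm hq n hPb hP, ← hL]
  have e1 : ‖(3 : ℂ) ^ ((n + 1) * (2 * n + 1)) * (An L : ℂ)‖ = 3 ^ ((n + 1) * (2 * n + 1)) * An L := by
    rw [norm_mul, norm_pow, Complex.norm_real, Real.norm_eq_abs, abs_of_pos (an_pos L)]
    norm_num
  rw [e1, mul_div_mul_left _ _ (by positivity)]
  have hs : 0 < (4 / (3 * Real.sqrt 3)) ^ (L ^ 2) := by positivity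
  have ee : (7 / 36 - 3 * (Real.pi / 3) ^ 2 / (4 * Real.pi ^ 2) : ℝ) = 1 / 9 := by
    field_simp
    norm_num
  rw [ee] at q1 q2
  have hd : 0 < (4 / (3 * Real.sqrt 3)) ^ (L ^ 2) *
      ‖(1 + Complex.exp (Complex.I * ((Real.pi / 3 : ℝ) : ℂ)) • PAS.BM L).det‖ :=
    lt_of_lt_of_le (by positivity) q1
  have er : An L / ‖(1 + Complex.exp (Complex.I * ((Real.pi / 3 : ℝ) : ℂ)) • PAS.BM L).det‖ =
      ((4 / (3 * Real.sqrt 3)) ^ (L ^ 2) * An L) /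
        ((4 / (3 * Real.sqrt 3)) ^ (L ^ 2) *
          ‖(1 + Complex.exp (Complex.I * ((Real.pi / 3 : ℝ) : ℂ)) • PAS.BM L).det‖) := by
    rw [mul_div_mul_left _ _ hs.ne']
  rw [er]
  have ex : (L : ℝ) ^ (-(1 / 4) : ℝ) = (L : ℝ) ^ (-(5 / 36) : ℝ) / (L : ℝ) ^ (1 / 9 : ℝ) := by
    rw [← Real.rpow_sub hx]
    norm_num
  rw [ex]
  have hp : 0 < (L : ℝ) ^ (1 / 9 : ℝ) := Real.rpow_pos_of_pos hx _
  constructor
  · rw [div_mul_div_comm]
    exact div_le_div₀ (le_trans (by positivity) p1) p1 hd q2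
  · rw [div_mul_div_comm]
    exact div_le_div₀ (by positivity) p2 (by positivity) q1

end CYQ
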