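import Mathlib

/-!
# The cyclotomic determinant: definitions

`T3 a b = a² + a b + b²`, the numbers `Rn L = (-3)^(L(L-1)/2) ∏_{i,j<L} (3 (j-i) + 1)/(L + j - i)` and `An L = ∏_{j<L} (3j+1)! j!/((2j)! (2j+1)!)`
(number of alternating sign matrices).
-/

set_option autoImplicit false

noncomputable section

namespace CYQ

open Finset

def T3 (a b : ℂ) : ℂ := a ^ 2 + a * b + b ^ 2

theorem T3_comm (a b : ℂ) : T3 a b = T3 b a := by
  unfold T3
  ring

theorem T3_mul (a b : ℂ) : (a - b) * T3 a b = a ^ 3 - b ^ 3 := by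
  unfold T3
  ring

/-- the product which is the value of the determinant -/
def Rn (L : ℕ) : ℝ :=
  (-3) ^ (L * (L - 1) / 2) * ∏ i ∈ range L, ∏ j ∈ range L,
    ((3 * ((j : ℝ) - i) + 1) / (L + j - i))

/-- the numbers of alternating sign matrices -/
def An (L : ℕ) : ℝ :=
  ∏ j ∈ range L, (((3 * j + 1).factorial : ℝ) * (j.factorial : ℝ)) /
    (((2 * j).factorial : ℝ) * ((2 * j + 1).factorial : ℝ))

end CYQ
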