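import Pool.Agent.Lib.MP_216314_pr.Q.QDef

/-!
# The alternant with the exponents `0, 1 mod 3` and the kernel `1/T3`

Let `X i k = x_i^(3k)`, `Y j k = y_j^(3k)` (Vandermonde matrices in the cubes), `Dx`, `Dy` the diagonal matrices of `x`, `y`. `MB x y = fromBlocks X (Dx X) Y (Dy Y)`.
`det MB = det X * det (Dy Y - Y X⁻¹ Dx X) = det X * det ((Dy C - C Dx) X) = (det X)² det (Dy C - C Dx)` with `C = Y X⁻¹` (`Matrix.det_fromBlocks₁₁`, `X` invertible as the cubes `x_i³` are
different). `C j i = ∏_{k≠i} (y_j³ - x_k³)/(x_i³ - x_k³)`: this matrix satisfies `C X = Y` because `∑_i (Lagrange basis polynomial i)(v) x_i^(3k) = v^k` at `v = y_j³`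
(`Lagrange.sum_basis`-type statement: `Lagrange.interpolate` of a polynomial of degree `< L` is the polynomial itself; `Lagrange.basis`).
`(Dy C - C Dx) j i = (y_j - x_i) C j i = (T3 (y_j) (x_i))⁻¹ * (∏_k (y_j³ - x_k³)) / ∏_{k≠i} (x_i³ - x_k³)` because `(y - x) T3 y x = y³ - x³` (`y_j ≠ x_i` since the cubes differ).
`det` of a matrix with row factors `∏_k (y_j³ - x_k³)` and column factors `1/∏_{k≠i} (x_i³ - x_k³)`: `Matrix.det_mul_row`, `Matrix.det_mul_column`.
`∏_i ∏_{k≠i} (x_i³ - x_k³) = (-1)^(L(L-1)/2) (det X)²` (`Matrix.det_vandermonde`; every pair `i<k` occurs twice with opposite signs; number of pairs `L(L-1)/2`).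
-/

set_option autoImplicit false

noncomputable section

namespace CYQ

open Finset

/-- block alternant -/
def MB {L : ℕ} (x y : Fin L → ℂ) : Matrix (Fin L ⊕ Fin L) (Fin L ⊕ Fin L) ℂ :=
  Matrix.fromBlocks (Matrix.of fun i k => x i ^ (3 * (k : ℕ))) (Matrix.of fun i k => x i ^ (3 * (k : ℕ) + 1))
    (Matrix.of fun j k => y j ^ (3 * (k : ℕ))) (Matrix.of fun j k => y j ^ (3 * (k : ℕ) + 1))

theorem blk_lagrange {L : ℕ} (v : Fin L → ℂ) (hv : Function.Injective v) (w : ℂ) (k : Fin L) :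
    ∑ i, (∏ m ∈ univ.erase i, (w - v m) / (v i - v m)) * v i ^ (k : ℕ) = w ^ (k : ℕ) := by
  have hdeg : ((Polynomial.X : Polynomial ℂ) ^ (k : ℕ)).degree < (univ : Finset (Fin L)).card := by
    rw [Polynomial.degree_X_pow, Finset.card_univ, Fintype.card_fin]
    exact_mod_cast k.isLt
  have h1 := Lagrange.eq_interpolate (s := (univ : Finset (Fin L))) (v := v)
    (f := (Polynomial.X : Polynomial ℂ) ^ (k : ℕ)) (hv.injOn) hdeg
  have h2 := congrArg (Polynomial.eval w) h1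
  rw [Lagrange.interpolate_apply, Polynomial.eval_finsetSum, Polynomial.eval_pow,
    Polynomial.eval_X] at h2
  rw [h2]
  refine Finset.sum_congr rfl fun i _ => ?_
  rw [Polynomial.eval_mul, Polynomial.eval_C, Polynomial.eval_pow, Polynomial.eval_X,
    Lagrange.basis, Polynomial.eval_prod, mul_comm]
  congr 1
  refine Finset.prod_congr rfl fun m _ => ?_
  rw [Lagrange.basisDivisor, Polynomial.eval_mul, Polynomial.eval_C, Polynomial.eval_sub,
    Polynomial.eval_X, Polynomial.eval_C, div_eq_mul_inv, mul_comm]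

theorem blk_pairs {L : ℕ} (v : Fin L → ℂ) :
    ∏ i, ∏ m ∈ univ.erase i, (v i - v m) = (-1) ^ (L * (L - 1) / 2) * (Matrix.vandermonde v).det ^ 2 := by
  have h1 := Finset.prod_prod_Ioi_mul_eq_prod_prod_off_diag (fun m i : Fin L => (v i - v m))
  have h2 : ∀ i : Fin L, (univ.erase i : Finset (Fin L)) = {i}ᶜ := by
    intro i
    ext j
    simp
  simp_rw [h2]
  rw [← h1, Matrix.det_vandermonde, ← Finset.prod_pow]
  have h3 : (-1 : ℂ) ^ (L * (L - 1) / 2) = ∏ i : Fin L, (-1 : ℂ) ^ (Ioi i).card := by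
    rw [Finset.prod_pow_eq_pow_sum]
    congr 1
    simp_rw [Fin.card_Ioi]
    rw [← Finset.sum_range (fun i => L - 1 - i), Finset.sum_range_reflect (fun i => i) L,
      Finset.sum_range_id]
  rw [h3, ← Finset.prod_mul_distrib]
  refine Finset.prod_congr rfl fun i _ => ?_
  rw [← Finset.prod_pow, ← Finset.prod_const, ← Finset.prod_mul_distrib]
  refine Finset.prod_congr rfl fun j _ => ?_
  ring

private def QBlk_C {L : ℕ} (x y : Fin L → ℂ) : Matrix (Fin L) (Fin L) ℂ :=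
  Matrix.of fun j i => ∏ m ∈ univ.erase i, (y j ^ 3 - x m ^ 3) / (x i ^ 3 - x m ^ 3)

private def QBlk_X {L : ℕ} (x : Fin L → ℂ) : Matrix (Fin L) (Fin L) ℂ :=
  Matrix.of fun i k => x i ^ (3 * (k : ℕ))

private theorem QBlk_X_eq {L : ℕ} (x : Fin L → ℂ) :
    QBlk_X x = Matrix.vandermonde (fun i => x i ^ 3) := by
  ext i k
  simp only [QBlk_X, Matrix.of_apply, Matrix.vandermonde_apply, pow_mul]

private theorem QBlk_CX {L : ℕ} (x y : Fin L → ℂ) (hx : Function.Injective fun i => x i ^ 3) :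
    QBlk_C x y * QBlk_X x = QBlk_X y := by
  ext j k
  rw [Matrix.mul_apply]
  have h1 := blk_lagrange (fun i => x i ^ 3) hx (y j ^ 3) k
  simp only [QBlk_C, QBlk_X, Matrix.of_apply, pow_mul]
  exact h1

private theorem QBlk_MB {L : ℕ} (x y : Fin L → ℂ) (hx : Function.Injective fun i => x i ^ 3) :
    MB x y = Matrix.fromBlocks 1 (Matrix.diagonal x) (QBlk_C x y)
      (Matrix.diagonal y * QBlk_C x y) * Matrix.fromBlocks (QBlk_X x) 0 0 (QBlk_X x) := by
  rw [Matrix.fromBlocks_multiply]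
  simp only [Matrix.one_mul, Matrix.mul_zero, add_zero, zero_add, Matrix.mul_assoc]
  rw [QBlk_CX x y hx]
  unfold MB
  congr 1
  · ext i k
    rw [Matrix.diagonal_mul]
    simp only [QBlk_X, Matrix.of_apply, pow_succ]
    ring
  · ext i k
    rw [Matrix.diagonal_mul]
    simp only [QBlk_X, Matrix.of_apply, pow_succ]
    ring

theorem blk_det {L : ℕ} (x y : Fin L → ℂ) (hx : Function.Injective fun i => x i ^ 3)
    (hxy : ∀ i j, y j ^ 3 ≠ x i ^ 3) :
    (Matrix.of fun i j : Fin L => (T3 (x i) (y j))⁻¹).det * ∏ i, ∏ j, (y j ^ 3 - x i ^ 3) =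
      (-1) ^ (L * (L - 1) / 2) * (MB x y).det := by
  have hX : (QBlk_X x).det ≠ 0 := by
    rw [QBlk_X_eq, Matrix.det_vandermonde_ne_zero_iff]
    exact hx
  have hD : Matrix.diagonal y * QBlk_C x y - QBlk_C x y * Matrix.diagonal x =
      Matrix.of fun j i => (∏ m, (y j ^ 3 - x m ^ 3)) *
        (Matrix.of fun j i => (∏ m ∈ univ.erase i, (x i ^ 3 - x m ^ 3))⁻¹ *
          ((Matrix.of fun i j : Fin L => (T3 (x i) (y j))⁻¹).transpose) j i) j i := by
    ext j i
    rw [Matrix.sub_apply, Matrix.diagonal_mul, Matrix.mul_diagonal]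
    simp only [QBlk_C, Matrix.of_apply, Matrix.transpose_apply]
    rw [Finset.prod_div_distrib, ← Finset.mul_prod_erase univ (fun m => y j ^ 3 - x m ^ 3)
      (Finset.mem_univ i)]
    have h1 : (y j - x i) * T3 (x i) (y j) = y j ^ 3 - x i ^ 3 := by
      rw [T3_comm, T3_mul]
    have h2 : y j ^ 3 - x i ^ 3 ≠ 0 := sub_ne_zero.mpr (hxy i j)
    have h3 : T3 (x i) (y j) ≠ 0 := by
      intro h4
      rw [h4, mul_zero] at h1
      exact h2 h1.symm
    rw [← h1]
    field_simp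
  have hMB : (MB x y).det = (Matrix.diagonal y * QBlk_C x y - QBlk_C x y * Matrix.diagonal x).det *
      (QBlk_X x).det ^ 2 := by
    rw [QBlk_MB x y hx, Matrix.det_mul, Matrix.det_fromBlocks_one₁₁,
      Matrix.det_fromBlocks_zero₁₂]
    ring
  rw [hMB, hD, Matrix.det_mul_column, Matrix.det_mul_row, Matrix.det_transpose]
  have h5 := blk_pairs (fun i => x i ^ 3)
  rw [← QBlk_X_eq] at h5
  have h6 : ∏ i, (∏ m ∈ univ.erase i, (x i ^ 3 - x m ^ 3))⁻¹ =
      ((-1) ^ (L * (L - 1) / 2) * (QBlk_X x).det ^ 2)⁻¹ := by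
    rw [Finset.prod_inv_distrib, h5]
  rw [h6, Finset.prod_comm]
  have h7 : ((-1 : ℂ) ^ (L * (L - 1) / 2)) ≠ 0 := pow_ne_zero _ (by norm_num)
  field_simp

end CYQ
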