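import Pool.Agent.Lib.MP_216314_pr.Q.QGeo

/-!
# Limit of the determinant of `1/T3` along the geometric progressions

`(exp(ε a) - exp(ε b))/ε → a - b` as `ε → 0+` (derivative of `exp`). `det vandermonde (exp(ε a_i))/ε^(L(L-1)/2) → det vandermonde a` (`Matrix.det_vandermonde`, product over the pairs, number
of pairs `L(L-1)/2`: `lim_vdm`). `lim_cross`: `∏_{i,j} (exp(ε a_ij) - exp(ε b_ij))/ε^(L²) → ∏ (a_ij - b_ij)`. For small `ε > 0` (in fact for all real `ε ≠ 0`) the hypotheses of `blk_det` hold: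
the cubes `exp(3 ε m)`, `m = 0..2L-1`, are real and different (`Complex.exp` of a real number: `Complex.ofReal_exp`, injectivity of the real exponential).
`lim_T3`: `det[1/T3] = (-1)^C det MB / ∏∏ (y_j³ - x_i³)`, `ε^(L(L-1)) * ε^(L²) = ε^(L(L-1)/2) * ε^(L(L-1)/2) * ε^(L²)` and
`vandermonde (3 i) = 3^(L(L-1)/2) vandermonde i`, `vandermonde (3 i + 1)` the same (differences), `y_j³ - x_i³ = exp(ε 3(L+j)) - exp(ε 3 i)`, limit `3 (L + j - i) ≠ 0`.
-/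

set_option autoImplicit false

noncomputable section

namespace CYQ

open Finset Filter Topology

theorem lim_diff (a b : ℂ) : Tendsto (fun ε : ℝ => (Complex.exp (ε * a) - Complex.exp (ε * b)) / (ε : ℂ))
    (𝓝[>] 0) (𝓝 (a - b)) := by
  have hd : ∀ c : ℂ, HasDerivAt (fun ε : ℝ => Complex.exp ((ε : ℂ) * c)) c 0 := by
    intro c
    have h1 : HasDerivAt (fun ε : ℝ => (ε : ℂ) * c) (1 * c) 0 :=
      (Complex.ofRealCLM.hasDerivAt (x := (0:ℝ))).mul_const c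
    have h2 := h1.cexp
    have h3 : Complex.exp (((0:ℝ) : ℂ) * c) * (1 * c) = c := by simp
    rwa [h3] at h2
  have h := (hd a).sub (hd b)
  have h2 := hasDerivAt_iff_tendsto_slope.mp h
  have h3 := h2.mono_left (nhdsWithin_mono (0:ℝ) (fun x (hx : x ∈ Set.Ioi (0:ℝ)) => (ne_of_gt hx : x ≠ 0)))
  refine h3.congr (fun ε => ?_)
  simp only [slope, Pi.sub_apply, vsub_eq_sub, Complex.ofReal_zero, zero_mul, Complex.exp_zero, sub_self, sub_zero]
  rw [Complex.real_smul, Complex.ofReal_inv, div_eq_inv_mul]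

theorem QLim_card (L : ℕ) : ∑ i : Fin L, (Finset.Ioi i).card = L * (L - 1) / 2 := by
  have h : ∀ i : Fin L, (Finset.Ioi i).card = L - 1 - (i : ℕ) := fun i => by
    rw [Fin.card_Ioi]
  rw [Finset.sum_congr rfl (fun i _ => h i)]
  rw [Fin.sum_univ_eq_sum_range (fun i => L - 1 - i) L, Finset.sum_range_reflect (fun i => i) L]
  exact Finset.sum_range_id L

theorem QLim_prod_const {L : ℕ} (c : ℂ) : ∏ i : Fin L, ∏ _j ∈ Finset.Ioi i, c = c ^ (L * (L - 1) / 2) := by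
  simp only [Finset.prod_const]
  rw [Finset.prod_pow_eq_pow_sum, QLim_card]

theorem QLim_even (L : ℕ) : L * (L - 1) / 2 + L * (L - 1) / 2 = L * (L - 1) := by
  have h : Even (L * (L - 1)) := Nat.even_mul_pred_self L
  obtain ⟨k, hk⟩ := h
  omega

theorem lim_vdm {L : ℕ} (a : Fin L → ℂ) :
    Tendsto (fun ε : ℝ => (Matrix.vandermonde fun i => Complex.exp (ε * a i)).det / (ε : ℂ) ^ (L * (L - 1) / 2))
      (𝓝[>] 0) (𝓝 (Matrix.vandermonde a).det) := by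
  have h : Tendsto (fun ε : ℝ => ∏ i : Fin L, ∏ j ∈ Finset.Ioi i,
      ((Complex.exp (ε * a j) - Complex.exp (ε * a i)) / (ε : ℂ))) (𝓝[>] 0)
      (𝓝 (∏ i : Fin L, ∏ j ∈ Finset.Ioi i, (a j - a i))) :=
    tendsto_finsetProd _ (fun i _ => tendsto_finsetProd _ (fun j _ => lim_diff (a j) (a i)))
  rw [Matrix.det_vandermonde]
  refine h.congr (fun ε => ?_)
  rw [Matrix.det_vandermonde, ← QLim_prod_const (L := L) (ε : ℂ), ← Finset.prod_div_distrib]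
  refine Finset.prod_congr rfl (fun i _ => ?_)
  rw [← Finset.prod_div_distrib]

theorem lim_cross {L : ℕ} (a b : Fin L → Fin L → ℂ) :
    Tendsto (fun ε : ℝ => (∏ i, ∏ j, (Complex.exp (ε * a i j) - Complex.exp (ε * b i j))) / (ε : ℂ) ^ (L * L))
      (𝓝[>] 0) (𝓝 (∏ i, ∏ j, (a i j - b i j))) := by
  have h : Tendsto (fun ε : ℝ => ∏ i : Fin L, ∏ j : Fin L,
      ((Complex.exp (ε * a i j) - Complex.exp (ε * b i j)) / (ε : ℂ))) (𝓝[>] 0)
      (𝓝 (∏ i, ∏ j, (a i j - b i j))) :=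
    tendsto_finsetProd _ (fun i _ => tendsto_finsetProd _ (fun j _ => lim_diff (a i j) (b i j)))
  refine h.congr (fun ε => ?_)
  have hc : (ε : ℂ) ^ (L * L) = ∏ _i : Fin L, ∏ _j : Fin L, (ε : ℂ) := by
    rw [Finset.prod_const, Finset.prod_const, ← pow_mul, Finset.card_univ, Fintype.card_fin]
  rw [hc, ← Finset.prod_div_distrib]
  refine Finset.prod_congr rfl (fun i _ => ?_)
  rw [← Finset.prod_div_distrib]

theorem vdm_affine {L : ℕ} (a : Fin L → ℂ) (r s : ℂ) :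
    (Matrix.vandermonde fun i => r * a i + s).det = r ^ (L * (L - 1) / 2) * (Matrix.vandermonde a).det := by
  rw [Matrix.det_vandermonde, Matrix.det_vandermonde, ← QLim_prod_const (L := L) r, ← Finset.prod_mul_distrib]
  refine Finset.prod_congr rfl (fun i _ => ?_)
  rw [← Finset.prod_mul_distrib]
  refine Finset.prod_congr rfl (fun j _ => ?_)
  ring

theorem QLim_exp_inj {ε : ℝ} (hε : 0 < ε) {u v : ℝ} (h : Complex.exp ((ε : ℂ) * (u : ℂ)) = Complex.exp ((ε : ℂ) * (v : ℂ))) :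
    u = v := by
  have h1 : Complex.exp ((ε : ℂ) * (u : ℂ)) = ((Real.exp (ε * u) : ℝ) : ℂ) := by push_cast; rfl
  have h2 : Complex.exp ((ε : ℂ) * (v : ℂ)) = ((Real.exp (ε * v) : ℝ) : ℂ) := by push_cast; rfl
  rw [h1, h2] at h
  have h3 : Real.exp (ε * u) = Real.exp (ε * v) := by exact_mod_cast h
  have h4 := Real.exp_injective h3
  exact mul_left_cancel₀ hε.ne' h4

theorem QLim_cube (z : ℂ) : Complex.exp z ^ 3 = Complex.exp (3 * z) := by
  rw [← Complex.exp_nat_mul]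
  norm_num

theorem QLim_alg (s A B X Y p r : ℂ) (hp : p ≠ 0) (hr : r ≠ 0) (hY : Y ≠ 0) :
    s * (A / p * (B / p) * (X / r) / (Y / r)) = s * (A * B * X) / Y / (p * p) := by
  field_simp

theorem lim_T3 (L : ℕ) :
    Tendsto (fun ε : ℝ => (Matrix.of fun i j : Fin L =>
        (T3 (Complex.exp ((ε : ℂ) * i)) (Complex.exp ((ε : ℂ) * (L + j))))⁻¹).det / (ε : ℂ) ^ (L * (L - 1)))
      (𝓝[>] 0) (𝓝 ((-1) ^ (L * (L - 1) / 2) * 3 ^ (L * (L - 1)) *
        (Matrix.vandermonde fun i : Fin L => (i : ℂ)).det ^ 2 *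
        (∏ i : Fin L, ∏ j : Fin L, (3 * ((j : ℂ) - i) + 1)) /
        (3 ^ (L * L) * ∏ i : Fin L, ∏ j : Fin L, ((L : ℂ) + j - i)))) := by
  set C := L * (L - 1) / 2 with hC
  set V := (Matrix.vandermonde fun i : Fin L => (i : ℂ)).det with hV
  have l1 : Tendsto (fun ε : ℝ => (Matrix.vandermonde fun i : Fin L => Complex.exp ((ε : ℂ) * (3 * (i : ℂ)))).det
      / (ε : ℂ) ^ C) (𝓝[>] 0) (𝓝 (3 ^ C * V)) := by
    have h := lim_vdm (L := L) (fun i => 3 * (i : ℂ))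
    have e := vdm_affine (L := L) (fun i => (i : ℂ)) 3 0
    simp only [add_zero] at e
    rw [e] at h
    exact h
  have l2 : Tendsto (fun ε : ℝ => (Matrix.vandermonde fun i : Fin L => Complex.exp ((ε : ℂ) * (3 * (i : ℂ) + 1))).det
      / (ε : ℂ) ^ C) (𝓝[>] 0) (𝓝 (3 ^ C * V)) := by
    have h := lim_vdm (L := L) (fun i => 3 * (i : ℂ) + 1)
    have e := vdm_affine (L := L) (fun i => (i : ℂ)) 3 1
    rw [e] at h
    exact h
  have l3 : Tendsto (fun ε : ℝ => (∏ i : Fin L, ∏ j : Fin L, (Complex.exp ((ε : ℂ) * (3 * (j : ℂ) + 1))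
      - Complex.exp ((ε : ℂ) * (3 * (i : ℂ))))) / (ε : ℂ) ^ (L * L)) (𝓝[>] 0)
      (𝓝 (∏ i : Fin L, ∏ j : Fin L, (3 * ((j : ℂ) - i) + 1))) := by
    have h := lim_cross (L := L) (fun _ j => 3 * (j : ℂ) + 1) (fun i _ => 3 * (i : ℂ))
    have e : (∏ i : Fin L, ∏ j : Fin L, (3 * (j : ℂ) + 1 - 3 * (i : ℂ))) =
        ∏ i : Fin L, ∏ j : Fin L, (3 * ((j : ℂ) - i) + 1) := by
      refine Finset.prod_congr rfl (fun i _ => Finset.prod_congr rfl (fun j _ => ?_))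
      ring
    rw [e] at h
    exact h
  have l4 : Tendsto (fun ε : ℝ => (∏ i : Fin L, ∏ j : Fin L, (Complex.exp ((ε : ℂ) * (3 * ((L : ℂ) + j)))
      - Complex.exp ((ε : ℂ) * (3 * (i : ℂ))))) / (ε : ℂ) ^ (L * L)) (𝓝[>] 0)
      (𝓝 (3 ^ (L * L) * ∏ i : Fin L, ∏ j : Fin L, ((L : ℂ) + j - i))) := by
    have h := lim_cross (L := L) (fun _ j => 3 * ((L : ℂ) + j)) (fun i _ => 3 * (i : ℂ))
    have e : (∏ i : Fin L, ∏ j : Fin L, (3 * ((L : ℂ) + j) - 3 * (i : ℂ))) =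
        3 ^ (L * L) * ∏ i : Fin L, ∏ j : Fin L, ((L : ℂ) + j - i) := by
      have hc : (3 : ℂ) ^ (L * L) = ∏ _i : Fin L, ∏ _j : Fin L, (3 : ℂ) := by
        rw [Finset.prod_const, Finset.prod_const, ← pow_mul, Finset.card_univ, Fintype.card_fin]
      rw [hc, ← Finset.prod_mul_distrib]
      refine Finset.prod_congr rfl (fun i _ => ?_)
      rw [← Finset.prod_mul_distrib]
      refine Finset.prod_congr rfl (fun j _ => ?_)
      ring
    rw [e] at h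
    exact h
  have hne : (3 ^ (L * L) * ∏ i : Fin L, ∏ j : Fin L, ((L : ℂ) + j - i)) ≠ 0 := by
    apply mul_ne_zero (pow_ne_zero _ (by norm_num))
    refine Finset.prod_ne_zero_iff.mpr (fun i _ => Finset.prod_ne_zero_iff.mpr (fun j _ => ?_))
    have hi : (i : ℕ) < L := i.isLt
    have e : ((L : ℂ) + j - i) = ((L + (j : ℕ) - (i : ℕ) : ℕ) : ℂ) := by
      rw [Nat.cast_sub (by omega)]
      push_cast
      ring
    rw [e]
    have : L + (j : ℕ) - (i : ℕ) ≠ 0 := by omega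
    exact_mod_cast this
  have hlim := ((((l1.mul l2).mul l3).div l4 hne).const_mul ((-1 : ℂ) ^ C))
  have hval : (-1 : ℂ) ^ C * (3 ^ C * V * (3 ^ C * V) * (∏ i : Fin L, ∏ j : Fin L, (3 * ((j : ℂ) - i) + 1)) /
      (3 ^ (L * L) * ∏ i : Fin L, ∏ j : Fin L, ((L : ℂ) + j - i))) =
      (-1) ^ C * 3 ^ (L * (L - 1)) * V ^ 2 * (∏ i : Fin L, ∏ j : Fin L, (3 * ((j : ℂ) - i) + 1)) /
        (3 ^ (L * L) * ∏ i : Fin L, ∏ j : Fin L, ((L : ℂ) + j - i)) := by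
    rw [← QLim_even L, ← hC, pow_add]
    ring
  rw [hval] at hlim
  refine hlim.congr' ?_
  filter_upwards [self_mem_nhdsWithin] with ε hε
  have hε0 : (0:ℝ) < ε := hε
  have hεc : (ε : ℂ) ≠ 0 := by exact_mod_cast hε0.ne'
  have hx3 : ∀ i : Fin L, Complex.exp ((ε : ℂ) * (i : ℂ)) ^ 3 = Complex.exp ((ε : ℂ) * (3 * (i : ℂ))) := by
    intro i; rw [QLim_cube]; congr 1; ring
  have hy3 : ∀ j : Fin L, Complex.exp ((ε : ℂ) * ((L : ℂ) + j)) ^ 3 = Complex.exp ((ε : ℂ) * (3 * ((L : ℂ) + j))) := by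
    intro j; rw [QLim_cube]; congr 1; ring
  have hinj : Function.Injective fun i : Fin L => Complex.exp ((ε : ℂ) * (i : ℂ)) ^ 3 := by
    intro i i' h
    simp only [hx3] at h
    have e1 : (3 * ((i : ℕ) : ℂ)) = ((3 * ((i : ℕ) : ℝ) : ℝ) : ℂ) := by push_cast; ring
    have e2 : (3 * ((i' : ℕ) : ℂ)) = ((3 * ((i' : ℕ) : ℝ) : ℝ) : ℂ) := by push_cast; ring
    rw [e1, e2] at h
    have h2 := QLim_exp_inj hε0 h
    have h3 : ((i : ℕ) : ℝ) = ((i' : ℕ) : ℝ) := by linarith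
    exact Fin.ext (by exact_mod_cast h3)
  have hxy : ∀ i j : Fin L, Complex.exp ((ε : ℂ) * ((L : ℂ) + j)) ^ 3 ≠ Complex.exp ((ε : ℂ) * (i : ℂ)) ^ 3 := by
    intro i j h
    rw [hx3, hy3] at h
    have e1 : (3 * ((i : ℕ) : ℂ)) = ((3 * ((i : ℕ) : ℝ) : ℝ) : ℂ) := by push_cast; ring
    have e2 : (3 * ((L : ℂ) + ((j : ℕ) : ℂ))) = ((3 * ((L : ℝ) + ((j : ℕ) : ℝ)) : ℝ) : ℂ) := by push_cast; ring
    rw [e1, e2] at h
    have h2 := QLim_exp_inj hε0 h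
    have h3 : ((i : ℕ) : ℝ) < (L : ℝ) := by exact_mod_cast i.isLt
    have h4 : (0:ℝ) ≤ ((j : ℕ) : ℝ) := Nat.cast_nonneg _
    linarith
  have hb := blk_det (L := L) (fun i => Complex.exp ((ε : ℂ) * (i : ℂ))) (fun j => Complex.exp ((ε : ℂ) * ((L : ℂ) + j)))
    hinj hxy
  have hg := geo_det L (ε : ℂ)
  rw [hg] at hb
  simp only [hx3, hy3] at hb
  have hY : (∏ i : Fin L, ∏ j : Fin L, (Complex.exp ((ε : ℂ) * (3 * ((L : ℂ) + j)))
      - Complex.exp ((ε : ℂ) * (3 * (i : ℂ))))) ≠ 0 := by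
    refine Finset.prod_ne_zero_iff.mpr (fun i _ => Finset.prod_ne_zero_iff.mpr (fun j _ => ?_))
    have := hxy i j
    rw [hx3, hy3] at this
    exact sub_ne_zero.mpr this
  have hdet := eq_div_of_mul_eq hY hb
  have e2 : (ε : ℂ) ^ (L * (L - 1)) = (ε : ℂ) ^ C * (ε : ℂ) ^ C := by rw [← QLim_even L, ← hC, pow_add]
  rw [hdet, e2, ← hC]
  have hp1 : (ε : ℂ) ^ C ≠ 0 := pow_ne_zero _ hεc
  have hp2 : (ε : ℂ) ^ (L * L) ≠ 0 := pow_ne_zero _ hεc
  exact QLim_alg _ _ _ _ _ _ _ hp1 hp2 hY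

end CYQ
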