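import Pool.Agent.Lib.MP_216314_pr.Q.QKer
import Pool.Agent.Lib.MP_216314_pr.Q.QLim
import Pool.Agent.Lib.MP_216314_pr.Z.HomK

/-!
# The determinant `det (1 + q B)` for a primitive cube root of unity `q`

`sx x = (x - 1)/(q² - q x)`, inverse of `x = zs q s = (1 + q² s)/(1 + q s)`. With `x = exp(ε i)`, `y = exp(ε (L + j))`, `s = sx x`, `t = sx y⁻¹ = (1 - y)/(q² y - q)`:
`kk_eq`: `KK q s t = -3 q² (1 + q t)/((1 + q s)(1 + q² t)²) * (T3 x y)⁻¹` where `x = (1 + q² s)/(1 + q s)`, `y = (1 + q t)/(1 + q² t)`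
 [`x - q y = (1 - q)(1 - s t)/((1+qs)(1+q²t))`, `x - q² y = (1-q²)(1 - s - t)/((1+qs)(1+q²t))`, `T3 x y = (x - q y)(x - q² y)`, `(1-q)(1-q²) = 3`,
 `(1 - s - t) + q (1 - s t) = -q² (1 + q s)(1 + q t)`; all by field_simp and linear_combination with `q² + q + 1 = 0`].
`cube_paths`: `a ε i = sx (exp(ε i))/ε → i/(q² - q)`, `b ε j = sx (exp(-ε(L+j)))/ε → -(L+j)/(q² - q)` (`q² - q ≠ 0`; `(exp(εa) - 1)/ε → a` is `lim_diff a 0`).
`det_cube`: apply `tendsto_det_kernel2` with `c = ck q`, `ck_bound`, `KK_hasSum` (δ = 1/4), these paths; the other expression of the same function: by `kk_eq` and `Matrix.det_mul_row/column`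
`det[KK] = ∏_i (1 + q s_i)⁻¹ ∏_j (-3 q² (1 + q t_j)/(1 + q² t_j)²) det[1/T3]` (for small `ε > 0` the denominators are nonzero), the two products tend to `1` and `(-3 q²)^L`, `lim_T3`.
Uniqueness of limits: `V(a0) V(b0) det c = (-3q²)^L * limit`, `V(a0) V(b0) = (q²-q)^(-C) (-1)^C (q²-q)^(-C) V² = 3^(-C) V²` (`vdm_affine`, `(q²-q)² = -3`, `C = L(L-1)/2`), `V = det vandermonde i ≠ 0` cancels:
`det c = (-3 q²)^L (-1)^C 3^C 3^(2C) ∏∏(3(j-i)+1)/(3^(L²) ∏∏(L+j-i)) = (-q²)^L Rn L`, because `L + 3 C - L² = C` (`2C = L² - L`).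
-/

set_option autoImplicit false

noncomputable section

namespace CYQ

open Finset Filter Topology

theorem QCub_cube {q : ℂ} (hq : q ^ 2 + q + 1 = 0) : q ^ 3 = 1 := by
  linear_combination (q - 1) * hq

theorem QCub_ne {q : ℂ} (hq : q ^ 2 + q + 1 = 0) : q ^ 2 - q ≠ 0 := by
  intro h
  have h1 : (3 : ℂ) = 0 := by
    have h2 : q * (q - 1) = 0 := by linear_combination h
    rcases mul_eq_zero.mp h2 with h3 | h3
    · rw [h3] at hq
      norm_num at hq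
    · have h4 : q = 1 := by linear_combination h3
      rw [h4] at hq
      norm_num at hq
  norm_num at h1

theorem kk_eq {q : ℂ} (hq : q ^ 2 + q + 1 = 0) (s t : ℂ) (h1 : 1 + q * s ≠ 0) (h2 : 1 + q ^ 2 * t ≠ 0)
    (h3 : 1 - s * t ≠ 0) (h4 : 1 - s - t ≠ 0) :
    CY.KK q s t = (1 + q * s)⁻¹ * (-3 * q ^ 2 * (1 + q * t) / (1 + q ^ 2 * t) ^ 2) *
      (T3 ((1 + q ^ 2 * s) / (1 + q * s)) ((1 + q * t) / (1 + q ^ 2 * t)))⁻¹ := by
  have hc := QCub_cube hq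
  have hT : T3 ((1 + q ^ 2 * s) / (1 + q * s)) ((1 + q * t) / (1 + q ^ 2 * t)) =
      3 * (1 - s * t) * (1 - s - t) / ((1 + q * s) * (1 + q ^ 2 * t)) ^ 2 := by
    have e1 : (1 + q ^ 2 * s) / (1 + q * s) - q * ((1 + q * t) / (1 + q ^ 2 * t)) =
        (1 - q) * (1 - s * t) / ((1 + q * s) * (1 + q ^ 2 * t)) := by
      rw [mul_div_assoc', div_sub_div _ _ h1 h2]
      congr 1
      linear_combination (s * t * (q - 1)) * hc
    have e2 : (1 + q ^ 2 * s) / (1 + q * s) - q ^ 2 * ((1 + q * t) / (1 + q ^ 2 * t)) =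
        (1 - q ^ 2) * (1 - s - t) / ((1 + q * s) * (1 + q ^ 2 * t)) := by
      rw [mul_div_assoc', div_sub_div _ _ h1 h2]
      congr 1
      linear_combination (-s - t) * hc
    have e3 : T3 ((1 + q ^ 2 * s) / (1 + q * s)) ((1 + q * t) / (1 + q ^ 2 * t)) =
        ((1 + q ^ 2 * s) / (1 + q * s) - q * ((1 + q * t) / (1 + q ^ 2 * t))) *
        ((1 + q ^ 2 * s) / (1 + q * s) - q ^ 2 * ((1 + q * t) / (1 + q ^ 2 * t))) := by
      unfold T3
      generalize (1 + q ^ 2 * s) / (1 + q * s) = X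
      generalize (1 + q * t) / (1 + q ^ 2 * t) = Y
      linear_combination (X * Y) * hq - Y ^ 2 * hc
    rw [e3, e1, e2, div_mul_div_comm]
    have e4 : (1 - q) * (1 - q ^ 2) = 3 := by linear_combination hc - hq
    rw [← pow_two]
    congr 1
    linear_combination (1 - s * t) * (1 - s - t) * e4
  rw [hT, CY.KK]
  have h5 : (1 - s - t) + q * (1 - s * t) = -q ^ 2 * (1 + q * s) * (1 + q * t) := by
    linear_combination hq + (s + t + q * s * t) * hc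
  rw [div_add_div _ _ h3 h4, inv_div, inv_eq_one_div]
  rw [div_mul_div_comm, div_mul_div_comm, div_eq_div_iff (mul_ne_zero h3 h4)
    (mul_ne_zero (mul_ne_zero h1 (pow_ne_zero 2 h2)) (mul_ne_zero (mul_ne_zero three_ne_zero h3) h4))]
  have h6 : 1 * (1 - s - t) + (1 - s * t) * q = -q ^ 2 * (1 + q * s) * (1 + q * t) := by
    linear_combination h5
  rw [h6]
  ring

/-- inverse of the change of variables -/
def sx (q x : ℂ) : ℂ := (x - 1) / (q ^ 2 - q * x)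

theorem QCub_one (q x : ℂ) (h : q ^ 2 - q * x ≠ 0) :
    1 + q * sx q x = (q ^ 2 - q) / (q ^ 2 - q * x) := by
  unfold sx
  rw [mul_div_assoc', eq_div_iff h, add_mul, div_mul_cancel₀ _ h]
  ring

theorem QCub_two (q x : ℂ) (h : q ^ 2 - q * x ≠ 0) :
    1 + q ^ 2 * sx q x = x * (q ^ 2 - q) / (q ^ 2 - q * x) := by
  unfold sx
  rw [mul_div_assoc', eq_div_iff h, add_mul, div_mul_cancel₀ _ h]
  ring

theorem zs_sx {q : ℂ} (hq : q ^ 2 + q + 1 = 0) (x : ℂ) (h : q ^ 2 - q * x ≠ 0) :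
    (1 + q ^ 2 * sx q x) / (1 + q * sx q x) = x := by
  have h0 := QCub_ne hq
  rw [QCub_one q x h, QCub_two q x h]
  rw [div_div_div_cancel_right₀ h, mul_div_cancel_right₀ _ h0]

theorem zs_sx' {q : ℂ} (hq : q ^ 2 + q + 1 = 0) (y : ℂ) (hy : y ≠ 0) (h : q ^ 2 - q * y⁻¹ ≠ 0) (hy2 : q * y ≠ q ^ 2) :
    (1 + q * sx q y⁻¹) / (1 + q ^ 2 * sx q y⁻¹) = y := by
  have h1 := zs_sx hq y⁻¹ h
  rw [← inv_div, h1, inv_inv]

theorem QCub_exp (a : ℂ) : Tendsto (fun ε : ℝ => Complex.exp ((ε : ℂ) * a)) (𝓝[>] 0) (𝓝 1) := by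
  have h : Continuous (fun ε : ℝ => Complex.exp ((ε : ℂ) * a)) := by fun_prop
  have h2 := (h.tendsto 0).mono_left (nhdsWithin_le_nhds (s := Set.Ioi (0 : ℝ)))
  simpa using h2

theorem QCub_den {q : ℂ} (hq : q ^ 2 + q + 1 = 0) (a : ℂ) :
    Tendsto (fun ε : ℝ => q ^ 2 - q * Complex.exp ((ε : ℂ) * a)) (𝓝[>] 0) (𝓝 (q ^ 2 - q)) := by
  have h := (QCub_exp a).const_mul q
  rw [mul_one] at h
  exact h.const_sub (q ^ 2)

theorem lim_sx {q : ℂ} (hq : q ^ 2 + q + 1 = 0) (a : ℂ) :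
    Tendsto (fun ε : ℝ => sx q (Complex.exp ((ε : ℂ) * a)) / (ε : ℂ)) (𝓝[>] 0) (𝓝 (a / (q ^ 2 - q))) := by
  have h1 := lim_diff a 0
  have h2 := h1.div (QCub_den hq a) (QCub_ne hq)
  rw [sub_zero] at h2
  refine h2.congr fun ε => ?_
  simp only [Pi.div_apply, mul_zero, Complex.exp_zero]
  unfold sx
  rw [div_right_comm]

theorem QCub_zero {q : ℂ} (hq : q ^ 2 + q + 1 = 0) (a : ℂ) :
    Tendsto (fun ε : ℝ => sx q (Complex.exp ((ε : ℂ) * a))) (𝓝[>] 0) (𝓝 0) := by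
  have h1 := ((QCub_exp a).sub_const 1).div (QCub_den hq a) (QCub_ne hq)
  rw [sub_self, zero_div] at h1
  exact h1

theorem QCub_det {q : ℂ} (hq : q ^ 2 + q + 1 = 0) (L : ℕ) :
    (fun ε : ℝ => (Matrix.of fun i j : Fin L => CY.KK q ((ε : ℂ) * (sx q (Complex.exp ((ε : ℂ) * i)) / (ε : ℂ)))
      ((ε : ℂ) * (sx q (Complex.exp ((ε : ℂ) * (-(L + j)))) / (ε : ℂ)))).det / (ε : ℂ) ^ (L * (L - 1)))
    =ᶠ[𝓝[>] 0] (fun ε : ℝ => ((∏ i : Fin L, (1 + q * sx q (Complex.exp ((ε : ℂ) * i)))⁻¹) *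
      ∏ j : Fin L, (-3 * q ^ 2 * (1 + q * sx q (Complex.exp ((ε : ℂ) * (-(L + j))))) /
        (1 + q ^ 2 * sx q (Complex.exp ((ε : ℂ) * (-(L + j))))) ^ 2)) *
      ((Matrix.of fun i j : Fin L =>
        (T3 (Complex.exp ((ε : ℂ) * i)) (Complex.exp ((ε : ℂ) * (L + j))))⁻¹).det / (ε : ℂ) ^ (L * (L - 1)))) := by
  have h0 := QCub_ne hq
  have n1 : ∀ᶠ ε : ℝ in 𝓝[>] 0, ∀ i : Fin L, q ^ 2 - q * Complex.exp ((ε : ℂ) * i) ≠ 0 := by
    rw [eventually_all]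
    intro i
    exact (QCub_den hq (i : ℂ)).eventually_ne h0
  have n2 : ∀ᶠ ε : ℝ in 𝓝[>] 0, ∀ j : Fin L, q ^ 2 - q * Complex.exp ((ε : ℂ) * (-(L + j))) ≠ 0 := by
    rw [eventually_all]
    intro j
    exact (QCub_den hq (-(L + j) : ℂ)).eventually_ne h0
  have n2' : ∀ᶠ ε : ℝ in 𝓝[>] 0, ∀ j : Fin L, q ^ 2 - q * Complex.exp ((ε : ℂ) * (L + j)) ≠ 0 := by
    rw [eventually_all]
    intro j
    exact (QCub_den hq (L + j : ℂ)).eventually_ne h0
  have n3 : ∀ᶠ ε : ℝ in 𝓝[>] 0, ∀ i : Fin L, 1 + q * sx q (Complex.exp ((ε : ℂ) * i)) ≠ 0 := by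
    rw [eventually_all]
    intro i
    have h := ((QCub_zero hq (i : ℂ)).const_mul q).const_add 1
    rw [mul_zero, add_zero] at h
    exact h.eventually_ne one_ne_zero
  have n4 : ∀ᶠ ε : ℝ in 𝓝[>] 0, ∀ j : Fin L, 1 + q ^ 2 * sx q (Complex.exp ((ε : ℂ) * (-(L + j)))) ≠ 0 := by
    rw [eventually_all]
    intro j
    have h := ((QCub_zero hq (-(L + j) : ℂ)).const_mul (q ^ 2)).const_add 1
    rw [mul_zero, add_zero] at h
    exact h.eventually_ne one_ne_zero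
  have n5 : ∀ᶠ ε : ℝ in 𝓝[>] 0, ∀ i j : Fin L,
      1 - sx q (Complex.exp ((ε : ℂ) * i)) * sx q (Complex.exp ((ε : ℂ) * (-(L + j)))) ≠ 0 := by
    rw [eventually_all]
    intro i
    rw [eventually_all]
    intro j
    have h := ((QCub_zero hq (i : ℂ)).mul (QCub_zero hq (-(L + j) : ℂ))).const_sub 1
    rw [mul_zero, sub_zero] at h
    exact h.eventually_ne one_ne_zero
  have n6 : ∀ᶠ ε : ℝ in 𝓝[>] 0, ∀ i j : Fin L,
      1 - sx q (Complex.exp ((ε : ℂ) * i)) - sx q (Complex.exp ((ε : ℂ) * (-(L + j)))) ≠ 0 := by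
    rw [eventually_all]
    intro i
    rw [eventually_all]
    intro j
    have h := ((QCub_zero hq (i : ℂ)).const_sub 1).sub (QCub_zero hq (-(L + j) : ℂ))
    rw [sub_zero, sub_zero] at h
    exact h.eventually_ne one_ne_zero
  have n7 : ∀ᶠ ε : ℝ in 𝓝[>] 0, (0 : ℝ) < ε := eventually_nhdsWithin_of_forall fun x hx => hx
  filter_upwards [n1, n2, n2', n3, n4, n5, n6, n7] with ε m1 m2 m2' m3 m4 m5 m6 m7
  have hε : (ε : ℂ) ≠ 0 := by
    exact_mod_cast m7.ne'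
  have key : (Matrix.of fun i j : Fin L => CY.KK q ((ε : ℂ) * (sx q (Complex.exp ((ε : ℂ) * i)) / (ε : ℂ)))
      ((ε : ℂ) * (sx q (Complex.exp ((ε : ℂ) * (-(L + j)))) / (ε : ℂ)))) =
      Matrix.of fun i j : Fin L => (1 + q * sx q (Complex.exp ((ε : ℂ) * i)))⁻¹ *
        (Matrix.of fun i j : Fin L => (-3 * q ^ 2 * (1 + q * sx q (Complex.exp ((ε : ℂ) * (-(L + j))))) /
          (1 + q ^ 2 * sx q (Complex.exp ((ε : ℂ) * (-(L + j))))) ^ 2) *
          (Matrix.of fun i j : Fin L =>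
            (T3 (Complex.exp ((ε : ℂ) * i)) (Complex.exp ((ε : ℂ) * (L + j))))⁻¹) i j) i j := by
    ext i j
    simp only [Matrix.of_apply]
    rw [mul_div_cancel₀ _ hε, mul_div_cancel₀ _ hε, kk_eq hq _ _ (m3 i) (m4 j) (m5 i j) (m6 i j),
      zs_sx hq _ (m1 i)]
    have e1 : Complex.exp ((ε : ℂ) * (-(L + j))) = (Complex.exp ((ε : ℂ) * (L + j)))⁻¹ := by
      rw [← Complex.exp_neg]
      congr 1
      ring
    have e2 : (1 + q * sx q (Complex.exp ((ε : ℂ) * (-(L + j))))) /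
        (1 + q ^ 2 * sx q (Complex.exp ((ε : ℂ) * (-(L + j))))) = Complex.exp ((ε : ℂ) * (L + j)) := by
      rw [e1]
      refine zs_sx' hq _ (Complex.exp_ne_zero _) ?_ ?_
      · rw [← e1]
        exact m2 j
      · intro h
        exact m2' j (by rw [h, sub_self])
    rw [e2, mul_assoc]
  rw [key, Matrix.det_mul_column, Matrix.det_mul_row]
  ring

theorem det_cube {q : ℂ} (hq : q ^ 2 + q + 1 = 0) (L : ℕ) :
    (Matrix.of fun k l : Fin L => CY.ck q k l).det = (-q ^ 2) ^ L * (Rn L : ℂ) := by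
  have h0 := QCub_ne hq
  have hr : (q ^ 2 - q)⁻¹ ≠ 0 := inv_ne_zero h0
  have hinj : Function.Injective (fun i : Fin L => ((i : ℕ) : ℂ)) := fun i j h => by
    have h1 : ((i : ℕ) : ℂ) = ((j : ℕ) : ℂ) := h
    have h' : (i : ℕ) = (j : ℕ) := by exact_mod_cast h1
    exact Fin.ext h'
  have ha0 : Function.Injective (fun i : Fin L => (q ^ 2 - q)⁻¹ * ((i : ℕ) : ℂ) + 0) := fun i j h => by
    apply hinj
    have h2 : (q ^ 2 - q)⁻¹ * ((i : ℕ) : ℂ) = (q ^ 2 - q)⁻¹ * ((j : ℕ) : ℂ) := by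
      simpa using h
    exact mul_left_cancel₀ hr h2
  have hb0 : Function.Injective (fun j : Fin L => (-(q ^ 2 - q)⁻¹) * ((j : ℕ) : ℂ) + (-(q ^ 2 - q)⁻¹ * (L : ℂ))) :=
    fun i j h => by
    apply hinj
    have h2 := add_right_cancel h
    exact mul_left_cancel₀ (neg_ne_zero.mpr hr) h2
  have ha : Tendsto (fun ε : ℝ => fun i : Fin L => sx q (Complex.exp ((ε : ℂ) * i)) / (ε : ℂ)) (𝓝[>] 0)
      (𝓝 (fun i : Fin L => (q ^ 2 - q)⁻¹ * ((i : ℕ) : ℂ) + 0)) := by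
    rw [tendsto_pi_nhds]
    intro i
    have h := lim_sx hq ((i : ℕ) : ℂ)
    rw [div_eq_inv_mul] at h
    rw [add_zero]
    exact h
  have hb : Tendsto (fun ε : ℝ => fun j : Fin L => sx q (Complex.exp ((ε : ℂ) * (-(L + j)))) / (ε : ℂ)) (𝓝[>] 0)
      (𝓝 (fun j : Fin L => (-(q ^ 2 - q)⁻¹) * ((j : ℕ) : ℂ) + (-(q ^ 2 - q)⁻¹ * (L : ℂ)))) := by
    rw [tendsto_pi_nhds]
    intro j
    have h := lim_sx hq (-(L + j) : ℂ)
    have e : (-(q ^ 2 - q)⁻¹) * ((j : ℕ) : ℂ) + (-(q ^ 2 - q)⁻¹ * (L : ℂ)) =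
        (-((L : ℂ) + (j : ℕ))) / (q ^ 2 - q) := by
      rw [div_eq_mul_inv]
      ring
    rw [e]
    exact h
  have k1 := tendsto_det_kernel2 (L := L) (CY.ck q) (1 + ‖q‖) 2 (CY.ck_bound q) (CY.KK q) (1 / 4) (by norm_num)
    (fun s t hs ht => CY.KK_hasSum q hs ht) _ _ ha0 ha _ _ hb0 hb
  have k2 := k1.congr' (QCub_det hq L)
  have p1 : Tendsto (fun ε : ℝ => ∏ i : Fin L, (1 + q * sx q (Complex.exp ((ε : ℂ) * i)))⁻¹) (𝓝[>] 0) (𝓝 1) := by
    have h : Tendsto (fun ε : ℝ => ∏ i : Fin L, (1 + q * sx q (Complex.exp ((ε : ℂ) * i)))⁻¹) (𝓝[>] 0)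
        (𝓝 (∏ i : Fin L, (1 : ℂ))) := by
      refine tendsto_finsetProd _ fun i _ => ?_
      have h := ((QCub_zero hq (i : ℂ)).const_mul q).const_add 1
      rw [mul_zero, add_zero] at h
      have h' := h.inv₀ one_ne_zero
      rw [inv_one] at h'
      exact h'
    simpa using h
  have p2 : Tendsto (fun ε : ℝ => ∏ j : Fin L, (-3 * q ^ 2 * (1 + q * sx q (Complex.exp ((ε : ℂ) * (-(L + j))))) /
        (1 + q ^ 2 * sx q (Complex.exp ((ε : ℂ) * (-(L + j))))) ^ 2)) (𝓝[>] 0) (𝓝 ((-3 * q ^ 2) ^ L)) := by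
    have h : Tendsto (fun ε : ℝ => ∏ j : Fin L, (-3 * q ^ 2 * (1 + q * sx q (Complex.exp ((ε : ℂ) * (-(L + j))))) /
        (1 + q ^ 2 * sx q (Complex.exp ((ε : ℂ) * (-(L + j))))) ^ 2)) (𝓝[>] 0)
        (𝓝 (∏ j : Fin L, (-3 * q ^ 2))) := by
      refine tendsto_finsetProd _ fun j _ => ?_
      have h1 := (((QCub_zero hq (-(L + j) : ℂ)).const_mul q).const_add 1).const_mul (-3 * q ^ 2)
      have h2 := (((QCub_zero hq (-(L + j) : ℂ)).const_mul (q ^ 2)).const_add 1).pow 2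
      rw [mul_zero, add_zero, mul_one] at h1
      rw [mul_zero, add_zero, one_pow] at h2
      have h3 := h1.div h2 one_ne_zero
      rw [div_one] at h3
      exact h3
    simpa using h
  have k3 := (p1.mul p2).mul (lim_T3 L)
  have k4 := tendsto_nhds_unique k2 k3
  rw [vdm_affine, vdm_affine, one_mul] at k4
  set V : ℂ := (Matrix.vandermonde fun i : Fin L => ((i : ℕ) : ℂ)).det with hV
  have hV0 : V ≠ 0 := by
    rw [hV]
    exact Matrix.det_vandermonde_ne_zero_iff.mpr hinj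
  set c : ℂ := (Matrix.of fun k l : Fin L => CY.ck q k l).det with hc
  set N : ℂ := ∏ i : Fin L, ∏ j : Fin L, (3 * ((j : ℂ) - i) + 1) with hN
  set D : ℂ := ∏ i : Fin L, ∏ j : Fin L, ((L : ℂ) + j - i) with hD
  have hD0 : D ≠ 0 := by
    rw [hD]
    refine Finset.prod_ne_zero_iff.mpr fun i _ => Finset.prod_ne_zero_iff.mpr fun j _ => ?_
    have hi := i.2
    have h : ((L : ℂ) + (j : ℕ) - (i : ℕ)) = ((L + j - i : ℕ) : ℂ) := by
      rw [Nat.cast_sub (by omega), Nat.cast_add]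
    rw [h]
    exact_mod_cast (by omega : L + (j : ℕ) - (i : ℕ) ≠ 0)
  have hR : (Rn L : ℂ) = (-3) ^ (L * (L - 1) / 2) * (N / D) := by
    rw [hN, hD, Rn]
    push_cast
    rw [Finset.prod_range]
    rw [← Finset.prod_div_distrib]
    congr 1
    refine Finset.prod_congr rfl fun i _ => ?_
    rw [Finset.prod_range, ← Finset.prod_div_distrib]
  rw [hR]
  set C := L * (L - 1) / 2 with hCdef
  have hC2 : L * (L - 1) = 2 * C := by
    have h := Nat.even_mul_pred_self L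
    rw [hCdef, Nat.mul_div_cancel' h.two_dvd]
  have hLL : L * L = L + 2 * C := by
    rw [← hC2]
    rcases L with _ | n
    · rfl
    · simp only [Nat.add_sub_cancel]
      ring
  rw [hC2, hLL] at k4
  have hsq : (q ^ 2 - q) ^ 2 = -3 := by
    linear_combination (q - 2) * QCub_cube hq + hq
  have hprod : ((q ^ 2 - q)⁻¹) ^ C * (-(q ^ 2 - q)⁻¹) ^ C * 3 ^ C = 1 := by
    rw [← mul_pow, ← mul_pow]
    have : (q ^ 2 - q)⁻¹ * -(q ^ 2 - q)⁻¹ * 3 = 1 := by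
      have h2 : (q ^ 2 - q)⁻¹ * (q ^ 2 - q)⁻¹ = (-3)⁻¹ := by
        rw [← mul_inv, ← pow_two, hsq]
      linear_combination (-3) * h2
    rw [this, one_pow]
  have k5 : V ^ 2 * c * ((3 ^ (L + 2 * C)) * D) =
      V ^ 2 * (3 ^ C * ((-3 * q ^ 2) ^ L * ((-1) ^ C * 3 ^ (2 * C) * N))) := by
    have h3 : (3 : ℂ) ^ (L + 2 * C) * D ≠ 0 := mul_ne_zero (pow_ne_zero _ three_ne_zero) hD0
    rw [mul_div_assoc'] at k4
    rw [eq_div_iff h3] at k4
    linear_combination (3 ^ C) * k4 - (V ^ 2 * c * ((3 ^ (L + 2 * C)) * D)) * hprod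
  have hV2 : V ^ 2 ≠ 0 := pow_ne_zero 2 hV0
  have k6 : c * ((3 ^ (L + 2 * C)) * D) = 3 ^ C * ((-3 * q ^ 2) ^ L * ((-1) ^ C * 3 ^ (2 * C) * N)) := by
    apply mul_left_cancel₀ hV2
    rw [← k5]
    ring
  have h3 : (3 : ℂ) ^ (L + 2 * C) ≠ 0 := pow_ne_zero _ three_ne_zero
  rw [mul_div_assoc', mul_div_assoc', eq_div_iff hD0]
  apply mul_left_cancel₀ h3
  have e1 : (-3 * q ^ 2 : ℂ) ^ L = 3 ^ L * (-q ^ 2) ^ L := by
    rw [← mul_pow]
    congr 1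
    ring
  have e2 : (-3 : ℂ) ^ C = (-1) ^ C * 3 ^ C := by
    rw [← mul_pow]
    congr 1
    ring
  rw [e1] at k6
  rw [e2]
  calc 3 ^ (L + 2 * C) * (c * D) = c * (3 ^ (L + 2 * C) * D) := by ring
    _ = _ := by rw [k6, pow_add]; ring

end CYQ
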