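import Pool.Agent.Lib.MP_216314_pr.Q.QBlk

/-!
# The alternant at a geometric progression

`x_i = exp (ε i)`, `y_j = exp (ε (L + j))`. Reindex by `finSumFinEquiv : Fin L ⊕ Fin L ≃ Fin (L + L)`: the row number `m : Fin (L+L)` is `exp (ε m)^(κ c) = (exp (ε κ c))^m`,
`κ c = 3c` for the first `L` columns, `κ (L + k) = 3k + 1`: transposed Vandermonde matrix of `v c = exp (ε κ c)`. `Matrix.det_vandermonde`: `∏_{c < c'} (v c' - v c)`; split the pairs
(`Fin.sum`: first-first, second-second, first-second): `∏_{i<i'} (exp(3εi') - exp(3εi)) * ∏_{i<i'} (exp(ε(3i'+1)) - exp(ε(3i+1))) * ∏_{i,j} (exp(ε(3j+1)) - exp(3εi))`.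
(Splitting: `Fin.prod_univ_add`, or an induction; the product over `Ioi c` of `Fin (L+L)`: write it as a product over all pairs with an `if c < c'`.)
-/

set_option autoImplicit false

noncomputable section

namespace CYQ

open Finset

private theorem QGeo_ite {n : ℕ} (v : Fin n → ℂ) : (Matrix.vandermonde v).det =
    ∏ i : Fin n, ∏ j : Fin n, if i < j then v j - v i else 1 := by
  rw [Matrix.det_vandermonde]
  refine prod_congr rfl fun i _ => ?_
  rw [← prod_filter]
  refine prod_congr ?_ fun _ _ => rfl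
  ext j
  rw [mem_Ioi, mem_filter]
  exact (and_iff_right (mem_univ j)).symm

theorem geo_split {L : ℕ} (v : Fin (L + L) → ℂ) :
    (Matrix.vandermonde v).det = (Matrix.vandermonde fun i : Fin L => v (Fin.castAdd L i)).det *
      (Matrix.vandermonde fun i : Fin L => v (Fin.natAdd L i)).det *
      ∏ i : Fin L, ∏ j : Fin L, (v (Fin.natAdd L j) - v (Fin.castAdd L i)) := by
  rw [QGeo_ite, QGeo_ite, QGeo_ite, Fin.prod_univ_add]
  have e1 : ∀ i : Fin L, ∏ j : Fin (L + L), (if Fin.castAdd L i < j then v j - v (Fin.castAdd L i) else 1) =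
      (∏ j : Fin L, if i < j then v (Fin.castAdd L j) - v (Fin.castAdd L i) else 1) *
        ∏ j : Fin L, (v (Fin.natAdd L j) - v (Fin.castAdd L i)) := by
    intro i
    rw [Fin.prod_univ_add]
    congr 1
    refine prod_congr rfl fun j _ => ?_
    rw [if_pos]
    rw [Fin.lt_def, Fin.val_castAdd, Fin.val_natAdd]
    omega
  have e2 : ∀ i : Fin L, ∏ j : Fin (L + L), (if Fin.natAdd L i < j then v j - v (Fin.natAdd L i) else 1) =
      (∏ j : Fin L, if i < j then v (Fin.natAdd L j) - v (Fin.natAdd L i) else 1) := by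
    intro i
    rw [Fin.prod_univ_add]
    have e3 : ∏ j : Fin L, (if Fin.natAdd L i < Fin.castAdd L j then
        v (Fin.castAdd L j) - v (Fin.natAdd L i) else 1) = 1 := by
      refine prod_eq_one fun j _ => ?_
      rw [if_neg]
      rw [Fin.lt_def, Fin.val_castAdd, Fin.val_natAdd]
      omega
    rw [e3, one_mul]
    refine prod_congr rfl fun j _ => ?_
    have e4 : (Fin.natAdd L i < Fin.natAdd L j) ↔ i < j := by
      rw [Fin.lt_def, Fin.lt_def, Fin.val_natAdd, Fin.val_natAdd]
      omega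
    by_cases h : i < j
    · rw [if_pos (e4.2 h), if_pos h]
    · rw [if_neg (fun h2 => h (e4.1 h2)), if_neg h]
  rw [prod_congr rfl fun i _ => e1 i, prod_congr rfl fun i _ => e2 i, prod_mul_distrib]
  ring

theorem geo_det (L : ℕ) (ε : ℂ) :
    (MB (fun i : Fin L => Complex.exp (ε * i)) (fun j : Fin L => Complex.exp (ε * (L + j)))).det =
      (Matrix.vandermonde fun i : Fin L => Complex.exp (ε * (3 * i))).det *
      (Matrix.vandermonde fun i : Fin L => Complex.exp (ε * (3 * i + 1))).det *
      ∏ i : Fin L, ∏ j : Fin L, (Complex.exp (ε * (3 * j + 1)) - Complex.exp (ε * (3 * i))) := by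
  obtain ⟨v, hv⟩ : ∃ v : Fin (L + L) → ℂ, v = Fin.append
      (fun k : Fin L => Complex.exp (ε * (3 * k))) (fun k : Fin L => Complex.exp (ε * (3 * k + 1))) :=
    ⟨_, rfl⟩
  have hl : ∀ i : Fin L, v (Fin.castAdd L i) = Complex.exp (ε * (3 * i)) := by
    intro i
    rw [hv, Fin.append_left]
  have hr : ∀ i : Fin L, v (Fin.natAdd L i) = Complex.exp (ε * (3 * i + 1)) := by
    intro i
    rw [hv, Fin.append_right]
  have e1 : MB (fun i : Fin L => Complex.exp (ε * i)) (fun j : Fin L => Complex.exp (ε * (L + j))) =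
      ((Matrix.vandermonde v).transpose).submatrix finSumFinEquiv finSumFinEquiv := by
    ext a b
    rcases a with i | j <;> rcases b with k | k
    · show Complex.exp (ε * i) ^ (3 * (k : ℕ)) =
        v (Fin.castAdd L k) ^ ((Fin.castAdd L i : Fin (L + L)) : ℕ)
      rw [hl, Fin.val_castAdd, ← Complex.exp_nat_mul, ← Complex.exp_nat_mul]
      congr 1
      push_cast
      ring
    · show Complex.exp (ε * i) ^ (3 * (k : ℕ) + 1) =
        v (Fin.natAdd L k) ^ ((Fin.castAdd L i : Fin (L + L)) : ℕ)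
      rw [hr, Fin.val_castAdd, ← Complex.exp_nat_mul, ← Complex.exp_nat_mul]
      congr 1
      push_cast
      ring
    · show Complex.exp (ε * (L + j)) ^ (3 * (k : ℕ)) =
        v (Fin.castAdd L k) ^ ((Fin.natAdd L j : Fin (L + L)) : ℕ)
      rw [hl, Fin.val_natAdd, ← Complex.exp_nat_mul, ← Complex.exp_nat_mul]
      congr 1
      push_cast
      ring
    · show Complex.exp (ε * (L + j)) ^ (3 * (k : ℕ) + 1) =
        v (Fin.natAdd L k) ^ ((Fin.natAdd L j : Fin (L + L)) : ℕ)
      rw [hr, Fin.val_natAdd, ← Complex.exp_nat_mul, ← Complex.exp_nat_mul]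
      congr 1
      push_cast
      ring
  rw [e1, Matrix.det_submatrix_equiv_self, Matrix.det_transpose, geo_split]
  simp only [hl, hr]

end CYQ
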