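import Mathlib

/-!
# Determinants of a kernel at nearby points (both families of points move)

Same statement and proof as `tendsto_det_kernel` in `Z/HomD.lean`, but the first family is `ε a(ε)` with `a(ε) → a0` as well.

`K s t = ∑ c_kl s^k t^l`, `|c_kl| ≤ C ρ^(k+l)`. Let `V(ε) = vandermonde (a ε)` (`V i k = a_i^k`), `U(ε) = vandermonde (b ε)`, invertible for small `ε` (the determinants tend to
`det vandermonde a0 ≠ 0`, `det vandermonde b0 ≠ 0`: `Matrix.det_vandermonde_ne_zero_iff`), `A = V⁻¹`, `B = U⁻¹`, `M(ε)_ij = K (ε a_i) (ε b_j)`, `N = A M Bᵀ`. Then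
`N_kl = ∑_{k',l'} c_{k'l'} ε^(k'+l') A_{k,k'} B_{l,l'}` with `A_{k,k'} = ∑_i (V⁻¹)_{k i} a_i^k'`, `B_{l,l'} = ∑_j (U⁻¹)_{l j} b_j^l'`; for `k' < L`: `A_{k,k'} = δ`, for `l' < L`: `B_{l,l'} = δ`. So only
`k' = k` or `k' ≥ L`, and `l' = l` or `l' ≥ L` contribute, and `N_kl/ε^(k+l) = c_kl + O(ε)` (`|A_{k,k'}| ≤ C' ρ'^k'`, `|B_{l,l'}| ≤ C' ρ'^l'` uniformly for small `ε`, geometric series).
Finally `det M = det V det U det N` and `det N = ε^(L(L-1)) det (N_kl/ε^(k+l))` (`∑_{k<L} 2k = L(L-1)`, `Matrix.det_mul_row`, `Matrix.det_mul_column`), everything converges.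

(Helpful: choose `ε0` and constants with `|a ε i|, |b ε i| ≤ R`, `|(V⁻¹) k i|, |(U⁻¹) k i| ≤ R'` for `0 < ε < ε0` by continuity (`Tendsto` of the inverse: `Matrix.inv_def`, `Ring.inverse`, adjugate is
polynomial in the entries; or use Cramer's rule directly). Dominated convergence for the double series: `tendsto_tsum_of_dominated_convergence`, with the terms divided by `ε^(k+l)`.)
-/

set_option autoImplicit false

noncomputable section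

namespace CYQ

open Finset Filter Topology

/-- coefficient functional -/
private def QKer_al {L : ℕ} (A : Matrix (Fin L) (Fin L) ℂ) (a : Fin L → ℂ) (k : Fin L) (m : ℕ) : ℂ :=
  ∑ i, A k i * a i ^ m

private theorem QKer_al_lt {L : ℕ} (A : Matrix (Fin L) (Fin L) ℂ) (a : Fin L → ℂ)
    (hA : A * Matrix.vandermonde a = 1) (k : Fin L) (m : ℕ) (hm : m < L) :
    QKer_al A a k m = if (k : ℕ) = m then 1 else 0 := by
  have h1 : (A * Matrix.vandermonde a) k ⟨m, hm⟩ = (1 : Matrix (Fin L) (Fin L) ℂ) k ⟨m, hm⟩ := by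
    rw [hA]
  rw [Matrix.mul_apply, Matrix.one_apply] at h1
  unfold QKer_al
  have h2 : ∑ i, A k i * a i ^ m = ∑ j, A k j * Matrix.vandermonde a j ⟨m, hm⟩ := by
    refine Finset.sum_congr rfl fun i _ => ?_
    rw [Matrix.vandermonde_apply]
  rw [h2, h1]
  by_cases h : (k : ℕ) = m
  · rw [if_pos h, if_pos (Fin.ext h)]
  · rw [if_neg h, if_neg fun h' => h (by rw [h'])]

private theorem QKer_al_norm {L : ℕ} (A : Matrix (Fin L) (Fin L) ℂ) (a : Fin L → ℂ) (k : Fin L) (m : ℕ)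
    (r : ℝ) (hr : ∀ i, ‖a i‖ ≤ r) :
    ‖QKer_al A a k m‖ ≤ (∑ k, ∑ i, ‖A k i‖) * r ^ m := by
  unfold QKer_al
  have h1 : ‖∑ i, A k i * a i ^ m‖ ≤ ∑ i, ‖A k i‖ * r ^ m := by
    refine (norm_sum_le _ _).trans (Finset.sum_le_sum fun i _ => ?_)
    rw [norm_mul, norm_pow]
    exact mul_le_mul_of_nonneg_left (pow_le_pow_left₀ (norm_nonneg _) (hr i) m) (norm_nonneg _)
  have h2 : 0 ≤ r ^ m ∨ L = 0 := by
    rcases Nat.eq_zero_or_pos L with h | h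
    · exact Or.inr h
    · exact Or.inl (pow_nonneg ((norm_nonneg _).trans (hr ⟨0, h⟩)) m)
  rcases h2 with h2 | h2
  · refine h1.trans ?_
    rw [← Finset.sum_mul]
    refine mul_le_mul_of_nonneg_right ?_ h2
    exact Finset.single_le_sum (f := fun k => ∑ i, ‖A k i‖)
      (fun k _ => Finset.sum_nonneg fun i _ => norm_nonneg _) (Finset.mem_univ k)
  · subst h2
    exact k.elim0

private theorem QKer_inv {L : ℕ} (b : Fin L → ℂ) (h : (Matrix.vandermonde b).det ≠ 0) :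
    ((Matrix.vandermonde b).det⁻¹ • (Matrix.vandermonde b).adjugate) * Matrix.vandermonde b = 1 := by
  rw [Matrix.smul_mul, Matrix.adjugate_mul, smul_smul, inv_mul_cancel₀ h, one_smul]

private theorem QKer_sum_range (L : ℕ) : (∑ i : Fin L, (i : ℕ)) + ∑ i : Fin L, (i : ℕ) = L * (L - 1) := by
  have h1 : ∑ i : Fin L, (i : ℕ) = ∑ i ∈ Finset.range L, i := Fin.sum_univ_eq_sum_range (fun i => i) L
  have h2 := Finset.sum_range_id_mul_two L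
  rw [h1]
  omega

/-- the determinant identity -/
private theorem QKer_det {L : ℕ} (M A B V U : Matrix (Fin L) (Fin L) ℂ) (hA : A * V = 1) (hB : B * U = 1)
    (ε : ℂ) (hε : ε ≠ 0) :
    M.det / ε ^ (L * (L - 1)) = V.det * U.det *
      (Matrix.of fun k l : Fin L => (∑ i, ∑ j, A k i * M i j * B l j) / ε ^ ((k : ℕ) + (l : ℕ))).det := by
  have h1 : A.det * V.det = 1 := by rw [← Matrix.det_mul, hA, Matrix.det_one]
  have h2 : B.det * U.det = 1 := by rw [← Matrix.det_mul, hB, Matrix.det_one]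
  have h3 : (A * M * B.transpose) = Matrix.of fun k l : Fin L => ε ^ (k : ℕ) *
      (Matrix.of fun k l : Fin L => ε ^ (l : ℕ) * (Matrix.of fun k l : Fin L =>
        (∑ i, ∑ j, A k i * M i j * B l j) / ε ^ ((k : ℕ) + (l : ℕ))) k l) k l := by
    ext k l
    rw [Matrix.of_apply, Matrix.of_apply, Matrix.of_apply, Matrix.mul_apply]
    have h4 : ∑ j, (A * M) k j * B.transpose j l = ∑ i, ∑ j, A k i * M i j * B l j := by
      rw [Finset.sum_comm]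
      refine Finset.sum_congr rfl fun j _ => ?_
      rw [Matrix.mul_apply, Matrix.transpose_apply, Finset.sum_mul]
    rw [h4, pow_add]
    field_simp
  have h5 := congrArg Matrix.det h3
  rw [Matrix.det_mul, Matrix.det_mul, Matrix.det_transpose, Matrix.det_mul_column, Matrix.det_mul_row,
    Finset.prod_pow_eq_pow_sum] at h5
  have h6 : M.det = V.det * U.det * (A.det * M.det * B.det) := by
    linear_combination (-(M.det) * (A.det * V.det) ) * h2 - M.det * h1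
  rw [h6, h5, ← QKer_sum_range L, pow_add]
  field_simp

/-- the general term -/
private def QKer_f {L : ℕ} (c : ℕ → ℕ → ℂ) (A : Matrix (Fin L) (Fin L) ℂ) (a : Fin L → ℂ)
    (B : Matrix (Fin L) (Fin L) ℂ) (b : Fin L → ℂ) (k l : Fin L) (ε : ℝ) (p : ℕ × ℕ) : ℂ :=
  c p.1 p.2 * ((ε : ℂ) ^ (p.1 + p.2) / (ε : ℂ) ^ ((k : ℕ) + (l : ℕ))) * QKer_al A a k p.1 * QKer_al B b l p.2

private theorem QKer_hasSum {L : ℕ} (c : ℕ → ℕ → ℂ) (K : ℂ → ℂ → ℂ) (A : Matrix (Fin L) (Fin L) ℂ)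
    (a : Fin L → ℂ) (B : Matrix (Fin L) (Fin L) ℂ) (b : Fin L → ℂ) (k l : Fin L) (ε : ℝ)
    (hK : ∀ i j, HasSum (fun p : ℕ × ℕ => c p.1 p.2 * (ε * a i) ^ p.1 * (ε * b j) ^ p.2)
      (K (ε * a i) (ε * b j))) :
    HasSum (QKer_f c A a B b k l ε)
      ((∑ i, ∑ j, A k i * (Matrix.of fun i j : Fin L => K (ε * a i) (ε * b j)) i j * B l j) /
        (ε : ℂ) ^ ((k : ℕ) + (l : ℕ))) := by
  have h1 : HasSum (fun p : ℕ × ℕ => ∑ i, ∑ j, A k i *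
      (c p.1 p.2 * (ε * a i) ^ p.1 * (ε * b j) ^ p.2) * B l j)
      (∑ i, ∑ j, A k i * K (ε * a i) (ε * b j) * B l j) :=
    hasSum_sum fun i _ => hasSum_sum fun j _ => ((hK i j).mul_left _).mul_right _
  have h2 := h1.div_const ((ε : ℂ) ^ ((k : ℕ) + (l : ℕ)))
  have h3 : QKer_f c A a B b k l ε = fun p : ℕ × ℕ => (∑ i, ∑ j, A k i *
      (c p.1 p.2 * (ε * a i) ^ p.1 * (ε * b j) ^ p.2) * B l j) / (ε : ℂ) ^ ((k : ℕ) + (l : ℕ)) := by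
    funext p
    unfold QKer_f QKer_al
    rw [mul_assoc, Finset.sum_mul_sum, Finset.mul_sum, Finset.sum_div]
    refine Finset.sum_congr rfl fun i _ => ?_
    rw [Finset.mul_sum, Finset.sum_div]
    refine Finset.sum_congr rfl fun j _ => ?_
    rw [mul_pow, mul_pow, pow_add]
    ring
  rw [h3]
  exact h2

/-- the indices with a nonzero contribution -/
private theorem QKer_ge {L : ℕ} (A : Matrix (Fin L) (Fin L) ℂ) (a : Fin L → ℂ)
    (hA : A * Matrix.vandermonde a = 1) (k : Fin L) (m : ℕ) (h : QKer_al A a k m ≠ 0) : (k : ℕ) ≤ m := by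
  by_contra hlt
  rw [not_le] at hlt
  rw [QKer_al_lt A a hA k m (hlt.trans k.2), if_neg (by omega)] at h
  exact h rfl

private theorem QKer_bound {L : ℕ} (c : ℕ → ℕ → ℂ) {C ρ r C1 C2 ε1 : ℝ} (hC : 0 ≤ C) (hρ : 0 ≤ ρ)
    (hr : 0 ≤ r) (hC1 : 0 ≤ C1) (hC2 : 0 ≤ C2)
    (hc : ∀ k l, ‖c k l‖ ≤ C * ρ ^ (k + l)) (A : Matrix (Fin L) (Fin L) ℂ)
    (a : Fin L → ℂ) (B : Matrix (Fin L) (Fin L) ℂ) (b : Fin L → ℂ) (k l : Fin L) (ε : ℝ) (hε : 0 < ε)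
    (hε1 : ε ≤ ε1) (hA : A * Matrix.vandermonde a = 1) (hB : B * Matrix.vandermonde b = 1)
    (hA1 : ∀ m, ‖QKer_al A a k m‖ ≤ C1 * r ^ m) (hB1 : ∀ m, ‖QKer_al B b l m‖ ≤ C2 * r ^ m) (p : ℕ × ℕ) :
    ‖QKer_f c A a B b k l ε p‖ ≤
      (C * C1 * C2 / ε1 ^ ((k : ℕ) + (l : ℕ))) * ((ρ * ε1 * r) ^ p.1 * (ρ * ε1 * r) ^ p.2) := by
  have hε10 : 0 < ε1 := hε.trans_le hε1
  by_cases h1 : QKer_al A a k p.1 = 0
  · unfold QKer_f
    rw [h1, mul_zero, zero_mul, norm_zero]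
    positivity
  by_cases h2 : QKer_al B b l p.2 = 0
  · unfold QKer_f
    rw [h2, mul_zero, norm_zero]
    positivity
  have h3 := QKer_ge A a hA k p.1 h1
  have h4 := QKer_ge B b hB l p.2 h2
  unfold QKer_f
  rw [norm_mul, norm_mul, norm_mul, norm_div, norm_pow, norm_pow, Complex.norm_real, Real.norm_eq_abs,
    abs_of_pos hε]
  have h5 : ε ^ (p.1 + p.2) / ε ^ ((k : ℕ) + (l : ℕ)) ≤ ε1 ^ (p.1 + p.2) / ε1 ^ ((k : ℕ) + (l : ℕ)) := by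
    have h6 : p.1 + p.2 = (p.1 + p.2 - ((k : ℕ) + (l : ℕ))) + ((k : ℕ) + (l : ℕ)) := by omega
    have h7 : ∀ x : ℝ, 0 < x → x ^ (p.1 + p.2) / x ^ ((k : ℕ) + (l : ℕ)) =
        x ^ (p.1 + p.2 - ((k : ℕ) + (l : ℕ))) := fun x hx => by
      rw [div_eq_iff (pow_ne_zero _ hx.ne'), ← pow_add, ← h6]
    rw [h7 ε hε, h7 ε1 hε10]
    exact pow_le_pow_left₀ hε.le hε1 _
  have h7 : ‖c p.1 p.2‖ * (ε ^ (p.1 + p.2) / ε ^ ((k : ℕ) + (l : ℕ))) * ‖QKer_al A a k p.1‖ *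
      ‖QKer_al B b l p.2‖ ≤ (C * ρ ^ (p.1 + p.2)) * (ε1 ^ (p.1 + p.2) / ε1 ^ ((k : ℕ) + (l : ℕ))) *
        (C1 * r ^ p.1) * (C2 * r ^ p.2) := by
    have h8 : 0 ≤ ε ^ (p.1 + p.2) / ε ^ ((k : ℕ) + (l : ℕ)) := by positivity
    have h9 : 0 ≤ C * ρ ^ (p.1 + p.2) := by positivity
    have h10 : 0 ≤ ε1 ^ (p.1 + p.2) / ε1 ^ ((k : ℕ) + (l : ℕ)) := by positivity
    have h11 : 0 ≤ C1 * r ^ p.1 := by positivity
    exact mul_le_mul (mul_le_mul (mul_le_mul (hc _ _) h5 h8 h9) (hA1 _) (norm_nonneg _)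
      (mul_nonneg h9 h10)) (hB1 _) (norm_nonneg _) (mul_nonneg (mul_nonneg h9 h10) h11)
  refine h7.trans (le_of_eq ?_)
  rw [pow_add ρ, pow_add ε1 p.1, mul_pow, mul_pow, mul_pow, mul_pow]
  ring

private theorem QKer_small {L : ℕ} (c : ℕ → ℕ → ℂ) {r C1 C2 : ℝ} (hr : 0 ≤ r) (hC1 : 0 ≤ C1) (hC2 : 0 ≤ C2)
    (A : Matrix (Fin L) (Fin L) ℂ)
    (a : Fin L → ℂ) (B : Matrix (Fin L) (Fin L) ℂ) (b : Fin L → ℂ) (k l : Fin L) (ε : ℝ) (hε : 0 < ε)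
    (hε1 : ε ≤ 1) (hA : A * Matrix.vandermonde a = 1) (hB : B * Matrix.vandermonde b = 1)
    (hA1 : ∀ m, ‖QKer_al A a k m‖ ≤ C1 * r ^ m) (hB1 : ∀ m, ‖QKer_al B b l m‖ ≤ C2 * r ^ m) (p : ℕ × ℕ)
    (hp : p ≠ ((k : ℕ), (l : ℕ))) :
    ‖QKer_f c A a B b k l ε p‖ ≤ (‖c p.1 p.2‖ * (C1 * r ^ p.1) * (C2 * r ^ p.2)) * ε := by
  by_cases h1 : QKer_al A a k p.1 = 0
  · unfold QKer_f
    rw [h1, mul_zero, zero_mul, norm_zero]
    positivity
  by_cases h2 : QKer_al B b l p.2 = 0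
  · unfold QKer_f
    rw [h2, mul_zero, norm_zero]
    positivity
  have h3 := QKer_ge A a hA k p.1 h1
  have h4 := QKer_ge B b hB l p.2 h2
  have h5 : (k : ℕ) + (l : ℕ) + 1 ≤ p.1 + p.2 := by
    by_contra h
    have h6 : p.1 = k := by omega
    have h7 : p.2 = l := by omega
    exact hp (Prod.ext h6 h7)
  unfold QKer_f
  rw [norm_mul, norm_mul, norm_mul, norm_div, norm_pow, norm_pow, Complex.norm_real, Real.norm_eq_abs,
    abs_of_pos hε]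
  have h6 : ε ^ (p.1 + p.2) / ε ^ ((k : ℕ) + (l : ℕ)) ≤ ε := by
    have h7 : p.1 + p.2 = (p.1 + p.2 - ((k : ℕ) + (l : ℕ) + 1)) + 1 + ((k : ℕ) + (l : ℕ)) := by omega
    rw [h7, pow_add, mul_div_cancel_right₀ _ (pow_ne_zero _ hε.ne'), pow_succ]
    exact mul_le_of_le_one_left hε.le (pow_le_one₀ hε.le hε1)
  have h8 : 0 ≤ ε ^ (p.1 + p.2) / ε ^ ((k : ℕ) + (l : ℕ)) := by positivity
  have h11 : 0 ≤ C1 * r ^ p.1 := by positivity
  have h7 : ‖c p.1 p.2‖ * (ε ^ (p.1 + p.2) / ε ^ ((k : ℕ) + (l : ℕ))) * ‖QKer_al A a k p.1‖ *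
      ‖QKer_al B b l p.2‖ ≤ ‖c p.1 p.2‖ * ε * (C1 * r ^ p.1) * (C2 * r ^ p.2) := by
    have h9 : 0 ≤ ‖c p.1 p.2‖ := norm_nonneg _
    exact mul_le_mul (mul_le_mul (mul_le_mul le_rfl h6 h8 h9) (hA1 _) (norm_nonneg _)
      (mul_nonneg h9 hε.le)) (hB1 _) (norm_nonneg _) (mul_nonneg (mul_nonneg h9 hε.le) h11)
  refine h7.trans (le_of_eq ?_)
  ring

private theorem QKer_entry {L : ℕ} (c : ℕ → ℕ → ℂ) (C ρ : ℝ) (hC : 0 ≤ C) (hρ : 0 ≤ ρ)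
    (hc : ∀ k l, ‖c k l‖ ≤ C * ρ ^ (k + l))
    (K : ℂ → ℂ → ℂ) (δ : ℝ) (hδ : 0 < δ)
    (hK : ∀ s t : ℂ, ‖s‖ < δ → ‖t‖ < δ → HasSum (fun p : ℕ × ℕ => c p.1 p.2 * s ^ p.1 * t ^ p.2) (K s t))
    (A : ℝ → Matrix (Fin L) (Fin L) ℂ) (a : ℝ → Fin L → ℂ) (B : ℝ → Matrix (Fin L) (Fin L) ℂ) (b : ℝ → Fin L → ℂ)
    (hA : ∀ᶠ ε in 𝓝[>] (0 : ℝ), A ε * Matrix.vandermonde (a ε) = 1)
    (hB : ∀ᶠ ε in 𝓝[>] (0 : ℝ), B ε * Matrix.vandermonde (b ε) = 1) {r C1 C2 : ℝ} (hr : 1 ≤ r)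
    (har : ∀ᶠ ε in 𝓝[>] (0 : ℝ), ∀ i, ‖a ε i‖ ≤ r) (hbr : ∀ᶠ ε in 𝓝[>] (0 : ℝ), ∀ i, ‖b ε i‖ ≤ r)
    (hC1 : 0 ≤ C1) (hAC : ∀ᶠ ε in 𝓝[>] (0 : ℝ), (∑ k, ∑ i, ‖A ε k i‖) ≤ C1)
    (hC2 : 0 ≤ C2) (hBC : ∀ᶠ ε in 𝓝[>] (0 : ℝ), (∑ k, ∑ i, ‖B ε k i‖) ≤ C2) (k l : Fin L) :
    Tendsto (fun ε : ℝ => (∑ i, ∑ j, A ε k i *
      (Matrix.of fun i j : Fin L => K (ε * a ε i) (ε * b ε j)) i j * B ε l j) /
        (ε : ℂ) ^ ((k : ℕ) + (l : ℕ))) (𝓝[>] 0) (𝓝 (c k l)) := by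
  have hr0 : 0 < r := zero_lt_one.trans_le hr
  have hA1 : ∀ᶠ ε in 𝓝[>] (0 : ℝ), ∀ m, ‖QKer_al (A ε) (a ε) k m‖ ≤ C1 * r ^ m := by
    filter_upwards [har, hAC] with ε h1 h2 m
    exact (QKer_al_norm (A ε) (a ε) k m r h1).trans
      (mul_le_mul_of_nonneg_right h2 (pow_nonneg hr0.le m))
  have hpos : ∀ᶠ ε in 𝓝[>] (0 : ℝ), 0 < ε := self_mem_nhdsWithin
  have hlt : ∀ η : ℝ, 0 < η → ∀ᶠ ε in 𝓝[>] (0 : ℝ), ε < η := fun η hη =>
    Filter.Eventually.filter_mono nhdsWithin_le_nhds (Iio_mem_nhds hη)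
  have hB1 : ∀ᶠ ε in 𝓝[>] (0 : ℝ), ∀ m, ‖QKer_al (B ε) (b ε) l m‖ ≤ C2 * r ^ m := by
    filter_upwards [hbr, hBC] with ε h1 h2 m
    exact (QKer_al_norm (B ε) (b ε) l m r h1).trans
      (mul_le_mul_of_nonneg_right h2 (pow_nonneg hr0.le m))
  set ε1 : ℝ := 1 / (2 * (ρ + 1) * r) with hε1d
  have hε1 : 0 < ε1 := by positivity
  have hR : ρ * ε1 * r ≤ 1 / 2 := by
    rw [hε1d]
    have h1 : ρ * (1 / (2 * (ρ + 1) * r)) * r = ρ / (ρ + 1) / 2 := by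
      field_simp
    rw [h1]
    have h2 : ρ / (ρ + 1) ≤ 1 := by
      rw [div_le_one (by linarith)]
      linarith
    linarith
  have hR0 : 0 ≤ ρ * ε1 * r := by positivity
  have hsum : Summable fun p : ℕ × ℕ => (C * C1 * C2 / ε1 ^ ((k : ℕ) + (l : ℕ))) *
      ((ρ * ε1 * r) ^ p.1 * (ρ * ε1 * r) ^ p.2) := by
    refine Summable.mul_left _ ?_
    have h1 : Summable fun n : ℕ => (ρ * ε1 * r) ^ n :=
      summable_geometric_of_lt_one hR0 (hR.trans_lt (by norm_num))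
    exact Summable.mul_of_nonneg h1 h1 (fun n => pow_nonneg hR0 n) (fun n => pow_nonneg hR0 n)
  have hlim : ∀ p : ℕ × ℕ, Tendsto (fun ε : ℝ => QKer_f c (A ε) (a ε) (B ε) (b ε) k l ε p) (𝓝[>] 0)
      (𝓝 (if p = ((k : ℕ), (l : ℕ)) then c k l else 0)) := by
    intro p
    by_cases hp : p = ((k : ℕ), (l : ℕ))
    · rw [if_pos hp]
      refine tendsto_const_nhds.congr' ?_
      filter_upwards [hB, hpos, hA] with ε h1 h2 hA'
      unfold QKer_f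
      rw [hp, QKer_al_lt (A ε) (a ε) hA' k _ k.2, QKer_al_lt (B ε) (b ε) h1 l _ l.2, if_pos rfl, if_pos rfl,
        div_self (pow_ne_zero _ (Complex.ofReal_ne_zero.2 h2.ne')), mul_one, mul_one, mul_one]
    · rw [if_neg hp]
      have h0 : Tendsto (fun ε : ℝ => (‖c p.1 p.2‖ * (C1 * r ^ p.1) * (C2 * r ^ p.2)) * ε) (𝓝[>] 0)
          (𝓝 0) := by
        have h1 : Tendsto (fun ε : ℝ => (‖c p.1 p.2‖ * (C1 * r ^ p.1) * (C2 * r ^ p.2)) * ε) (𝓝 0)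
            (𝓝 ((‖c p.1 p.2‖ * (C1 * r ^ p.1) * (C2 * r ^ p.2)) * 0)) :=
          tendsto_id.const_mul _
        rw [mul_zero] at h1
        exact h1.mono_left nhdsWithin_le_nhds
      refine squeeze_zero_norm' ?_ h0
      filter_upwards [hB, hpos, hB1, hlt 1 zero_lt_one, hA, hA1] with ε h1 h2 h3 h4 h5 h6
      exact QKer_small c hr0.le hC1 hC2 (A ε) (a ε) (B ε) (b ε) k l ε h2 h4.le h5 h1 h6 h3 p hp
  have hmain := tendsto_tsum_of_dominated_convergence hsum hlim (by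
    filter_upwards [hB, hpos, hB1, hlt ε1 hε1, hA, hA1] with ε h1 h2 h3 h4 h5 h6 p
    exact QKer_bound c hC hρ hr0.le hC1 hC2 hc (A ε) (a ε) (B ε) (b ε) k l ε h2 h4.le h5 h1 h6 h3 p)
  rw [tsum_ite_eq] at hmain
  refine hmain.congr' ?_
  filter_upwards [hpos, hbr, hlt (δ / r) (div_pos hδ hr0), har] with ε h1 h2 h3 h5
  have h4 : ∀ z : ℂ, ‖z‖ ≤ r → ‖(ε : ℂ) * z‖ < δ := by
    intro z hz
    rw [norm_mul, Complex.norm_real, Real.norm_eq_abs, abs_of_pos h1]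
    calc ε * ‖z‖ ≤ ε * r := mul_le_mul_of_nonneg_left hz h1.le
      _ < δ / r * r := mul_lt_mul_of_pos_right h3 hr0
      _ = δ := div_mul_cancel₀ _ hr0.ne'
  exact (QKer_hasSum c K (A ε) (a ε) (B ε) (b ε) k l ε fun i j =>
    hK _ _ (h4 _ (h5 i)) (h4 _ (h2 j))).tsum_eq

/-- everything about one moving family -/
private theorem QKer_fam {L : ℕ} (b : ℝ → Fin L → ℂ) (b0 : Fin L → ℂ)
    (hb0 : Function.Injective b0) (hb : Tendsto b (𝓝[>] 0) (𝓝 b0)) :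
    ∃ (B : ℝ → Matrix (Fin L) (Fin L) ℂ) (r C : ℝ), 0 ≤ r ∧ 0 ≤ C ∧
      (∀ᶠ ε in 𝓝[>] (0 : ℝ), B ε * Matrix.vandermonde (b ε) = 1) ∧
      (∀ᶠ ε in 𝓝[>] (0 : ℝ), ∀ i, ‖b ε i‖ ≤ r) ∧
      (∀ᶠ ε in 𝓝[>] (0 : ℝ), (∑ k, ∑ i, ‖B ε k i‖) ≤ C) ∧
      Tendsto (fun ε : ℝ => (Matrix.vandermonde (b ε)).det) (𝓝[>] 0) (𝓝 (Matrix.vandermonde b0).det) := by
  have hV0 : (Matrix.vandermonde b0).det ≠ 0 := Matrix.det_vandermonde_ne_zero_iff.2 hb0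
  have hcV : Continuous fun b : Fin L → ℂ => Matrix.vandermonde b := by
    refine continuous_matrix fun i j => ?_
    simp only [Matrix.vandermonde_apply]
    exact (continuous_apply i).pow _
  have hV : Tendsto (fun ε : ℝ => Matrix.vandermonde (b ε)) (𝓝[>] 0) (𝓝 (Matrix.vandermonde b0)) :=
    (hcV.tendsto b0).comp hb
  have hdet : Tendsto (fun ε : ℝ => (Matrix.vandermonde (b ε)).det) (𝓝[>] 0)
      (𝓝 (Matrix.vandermonde b0).det) :=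
    ((continuous_id.matrix_det).tendsto (Matrix.vandermonde b0)).comp hV
  have hadj : Tendsto (fun ε : ℝ => (Matrix.vandermonde (b ε)).adjugate) (𝓝[>] 0)
      (𝓝 (Matrix.vandermonde b0).adjugate) :=
    ((continuous_id.matrix_adjugate).tendsto (Matrix.vandermonde b0)).comp hV
  have hne : ∀ᶠ ε in 𝓝[>] (0 : ℝ), (Matrix.vandermonde (b ε)).det ≠ 0 := hdet.eventually_ne hV0
  have hBt : Tendsto (fun ε : ℝ => (Matrix.vandermonde (b ε)).det⁻¹ • (Matrix.vandermonde (b ε)).adjugate)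
      (𝓝[>] 0) (𝓝 ((Matrix.vandermonde b0).det⁻¹ • (Matrix.vandermonde b0).adjugate)) :=
    (hdet.inv₀ hV0).smul hadj
  have hB : ∀ᶠ ε in 𝓝[>] (0 : ℝ), ((Matrix.vandermonde (b ε)).det⁻¹ •
      (Matrix.vandermonde (b ε)).adjugate) * Matrix.vandermonde (b ε) = 1 := by
    filter_upwards [hne] with ε h
    exact QKer_inv (b ε) h
  have hcs : Continuous fun M : Matrix (Fin L) (Fin L) ℂ => ∑ k, ∑ i, ‖M k i‖ :=
    continuous_finsetSum _ fun k _ => continuous_finsetSum _ fun i _ =>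
      (continuous_id.matrix_elem k i).norm
  have hBs := (hcs.tendsto _).comp hBt
  have hBC := hBs.eventually_le_const (lt_add_one _)
  have hcb : Continuous fun v : Fin L → ℂ => ∑ i, ‖v i‖ :=
    continuous_finsetSum _ fun i _ => (continuous_apply i).norm
  have hbs := (hcb.tendsto _).comp hb
  have hbC := hbs.eventually_le_const (lt_add_one _)
  refine ⟨fun ε => (Matrix.vandermonde (b ε)).det⁻¹ • (Matrix.vandermonde (b ε)).adjugate,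
    (∑ i, ‖b0 i‖) + 1, _, ?_, ?_, hB, ?_, hBC, hdet⟩
  · exact add_nonneg (Finset.sum_nonneg fun _ _ => norm_nonneg _) zero_le_one
  · have h1 : 0 ≤ ∑ k, ∑ i, ‖((Matrix.vandermonde b0).det⁻¹ • (Matrix.vandermonde b0).adjugate) k i‖ :=
      Finset.sum_nonneg fun _ _ => Finset.sum_nonneg fun _ _ => norm_nonneg _
    exact add_nonneg h1 zero_le_one
  · filter_upwards [hbC] with ε h i
    have h1 : ‖b ε i‖ ≤ ∑ i, ‖b ε i‖ :=
      Finset.single_le_sum (f := fun i => ‖b ε i‖) (fun _ _ => norm_nonneg _) (Finset.mem_univ i)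
    exact h1.trans h

theorem tendsto_det_kernel2 {L : ℕ} (c : ℕ → ℕ → ℂ) (C ρ : ℝ) (hc : ∀ k l, ‖c k l‖ ≤ C * ρ ^ (k + l))
    (K : ℂ → ℂ → ℂ) (δ : ℝ) (hδ : 0 < δ)
    (hK : ∀ s t : ℂ, ‖s‖ < δ → ‖t‖ < δ → HasSum (fun p : ℕ × ℕ => c p.1 p.2 * s ^ p.1 * t ^ p.2) (K s t))
    (a : ℝ → Fin L → ℂ) (a0 : Fin L → ℂ) (ha0 : Function.Injective a0) (ha : Tendsto a (𝓝[>] 0) (𝓝 a0))
    (b : ℝ → Fin L → ℂ) (b0 : Fin L → ℂ) (hb0 : Function.Injective b0) (hb : Tendsto b (𝓝[>] 0) (𝓝 b0)) :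
    Tendsto (fun ε : ℝ => (Matrix.of fun i j : Fin L => K (ε * a ε i) (ε * b ε j)).det / (ε : ℂ) ^ (L * (L - 1)))
      (𝓝[>] 0) (𝓝 ((Matrix.vandermonde a0).det * (Matrix.vandermonde b0).det *
        (Matrix.of fun k l : Fin L => c k l).det)) := by
  have hC : 0 ≤ C := by
    have h := (norm_nonneg _).trans (hc 0 0)
    simpa using h
  have hc' : ∀ k l, ‖c k l‖ ≤ C * |ρ| ^ (k + l) := fun k l => (hc k l).trans
    (mul_le_mul_of_nonneg_left ((le_abs_self _).trans (abs_pow _ _).le) hC)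
  obtain ⟨A, r1, C1, hr1, hC1, hA, har, hAC, hdA⟩ := QKer_fam a a0 ha0 ha
  obtain ⟨B, r2, C2, hr2, hC2, hB, hbr, hBC, hdB⟩ := QKer_fam b b0 hb0 hb
  have hent := QKer_entry (r := 1 + r1 + r2) c C |ρ| hC (abs_nonneg _) hc' K δ hδ hK
    A a B b hA hB (by linarith)
    (by
      filter_upwards [har] with ε h i
      linarith [h i])
    (by
      filter_upwards [hbr] with ε h i
      linarith [h i]) hC1 hAC hC2 hBC
  have hP : Tendsto (fun ε : ℝ => (Matrix.of fun k l : Fin L => (∑ i, ∑ j, A ε k i *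
      (Matrix.of fun i j : Fin L => K (ε * a ε i) (ε * b ε j)) i j * B ε l j) /
        (ε : ℂ) ^ ((k : ℕ) + (l : ℕ)) : Matrix (Fin L) (Fin L) ℂ)) (𝓝[>] 0)
      (𝓝 (Matrix.of fun k l : Fin L => c k l)) := by
    refine tendsto_pi_nhds.2 fun k => tendsto_pi_nhds.2 fun l => ?_
    exact hent k l
  have hPd := ((continuous_id.matrix_det).tendsto (Matrix.of fun k l : Fin L => c k l)).comp hP
  have hfin := (hdA.mul hdB).mul hPd
  refine hfin.congr' ?_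
  filter_upwards [hA, hB, self_mem_nhdsWithin] with ε h0 h1 h2
  exact (QKer_det (Matrix.of fun i j : Fin L => K (ε * a ε i) (ε * b ε j)) _ _ (Matrix.vandermonde (a ε))
    (Matrix.vandermonde (b ε)) h0 h1 (ε : ℂ) (Complex.ofReal_ne_zero.2 (ne_of_gt h2))).symm

end CYQ
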